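import Pool.Agent.TH304.RI.Base

set_option autoImplicit false

open MeasureTheory
open scoped ENNReal NNReal
open Pool.Agent.H433R3.Sep

namespace Pool.Agent.TH304.RI.J595

/-! ### geometric sums -/

theorem geo1 (b : ℝ) (hb : 1 < b) (J : Finset ℤ) :
    ∀ a : ℤ, (∀ j ∈ J, j < a) → ∑ j ∈ J, b ^ j ≤ b ^ a / (b - 1) := by
  classical
  have hb0 : 0 < b := by linarith
  have hb1 : 0 < b - 1 := by linarith
  induction J using Finset.induction_on_max with
  | empty =>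
    intro a _
    rw [Finset.sum_empty]
    have := zpow_pos hb0 a
    positivity
  | insert c J' hc ih =>
    intro a ha
    have hcn : c ∉ J' := fun h => lt_irrefl _ (hc c h)
    rw [Finset.sum_insert hcn]
    have h1 := ih c hc
    have h2 : c + 1 ≤ a := ha c (Finset.mem_insert_self _ _)
    have h3 : b ^ (c + 1) ≤ b ^ a := zpow_le_zpow_right₀ hb.le h2
    have h4 : b ^ (c + 1) = b ^ c * b := zpow_add_one₀ hb0.ne' c
    calc b ^ c + ∑ j ∈ J', b ^ j ≤ b ^ c + b ^ c / (b - 1) := by linarith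
      _ = b ^ (c + 1) / (b - 1) := by
          rw [h4]
          field_simp
          ring
      _ ≤ _ := by gcongr

/-- geometric sums along an injective family of exponents -/
theorem geo2 {p q : ℝ} (hpq : p.HolderConjugate q) {ι : Type} (T : Finset ι) (k : ι → ℤ)
    (hinj : ∀ a ∈ T, ∀ b ∈ T, k a = k b → a = b) :
    (∑ a ∈ T, ((2 : ℝ) ^ k a) ^ (p - 1)) ^ q ≤
      ((2 : ℝ) ^ (p - 1) / ((2 : ℝ) ^ (p - 1) - 1)) ^ q * ∑ a ∈ T, ((2 : ℝ) ^ k a) ^ p := by
  classical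
  have hp1 := hpq.sub_one_pos
  have hq := hpq.symm.pos
  set b : ℝ := (2 : ℝ) ^ (p - 1) with hb
  have hb1 : 1 < b := Real.one_lt_rpow (by norm_num) hp1
  have hb0 : 0 < b := by linarith
  have hbm : 0 < b - 1 := by linarith
  have e1 : ∀ j : ℤ, ((2 : ℝ) ^ j) ^ (p - 1) = b ^ j := by
    intro j
    rw [hb, ← Real.rpow_intCast, ← Real.rpow_intCast, ← Real.rpow_mul (by norm_num),
      ← Real.rpow_mul (by norm_num), mul_comm]
  rcases T.eq_empty_or_nonempty with h | h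
  · rw [h, Finset.sum_empty, Finset.sum_empty, Real.zero_rpow hq.ne', mul_zero]
  · obtain ⟨m, hm, hmax⟩ := Finset.exists_max_image T k h
    have h1 : ∑ a ∈ T, ((2 : ℝ) ^ k a) ^ (p - 1) = ∑ j ∈ T.image k, b ^ j := by
      rw [Finset.sum_image (fun a ha b hb h => hinj a ha b hb h)]
      exact Finset.sum_congr rfl fun a _ => e1 (k a)
    have h2 : ∑ j ∈ T.image k, b ^ j ≤ b ^ (k m + 1) / (b - 1) := by
      refine geo1 b hb1 _ _ fun j hj => ?_
      obtain ⟨a, ha, rfl⟩ := Finset.mem_image.1 hj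
      have := hmax a ha
      omega
    have h3 : b ^ (k m + 1) / (b - 1) = (b / (b - 1)) * b ^ k m := by
      rw [zpow_add_one₀ hb0.ne']
      ring
    have h4 : (b ^ k m) ^ q = ((2 : ℝ) ^ k m) ^ p := by
      rw [← e1, ← Real.rpow_mul (by positivity), hpq.sub_one_mul_conj]
    rw [h1]
    calc (∑ j ∈ T.image k, b ^ j) ^ q ≤ ((b / (b - 1)) * b ^ k m) ^ q := by
          refine Real.rpow_le_rpow (Finset.sum_nonneg fun j _ => (zpow_pos hb0 j).le) ?_ hq.le
          rw [← h3]; exact h2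
      _ = (b / (b - 1)) ^ q * ((2 : ℝ) ^ k m) ^ p := by
          rw [Real.mul_rpow (by positivity) (by positivity), h4]
      _ ≤ _ := by
          gcongr
          exact Finset.single_le_sum (f := fun a => ((2 : ℝ) ^ k a) ^ p)
            (fun a _ => by positivity) hm

/-- the constant -/
noncomputable def KK (p q : ℝ) : ℝ :=
  ((2 : ℝ) ^ (p - 1) / ((2 : ℝ) ^ (p - 1) - 1)) ^ q * ((2 : ℝ) ^ (p - 1)) ^ q

theorem KK_pos {p q : ℝ} (hpq : p.HolderConjugate q) : 0 < KK p q := by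
  have hp1 := hpq.sub_one_pos
  have hb1 : 1 < (2 : ℝ) ^ (p - 1) := Real.one_lt_rpow (by norm_num) hp1
  have : 0 < (2 : ℝ) ^ (p - 1) - 1 := by linarith
  unfold KK
  positivity

theorem geo3 {p q : ℝ} (hpq : p.HolderConjugate q) {ι : Type} (T : Finset ι) (a : ι → ℝ)
    (ha : ∀ i ∈ T, 0 < a i)
    (hinj : ∀ i ∈ T, ∀ j ∈ T, Int.log 2 (a i) = Int.log 2 (a j) → i = j) :
    (∑ i ∈ T, a i ^ (p - 1)) ^ q ≤ KK p q * ∑ i ∈ T, a i ^ p := by
  have hp1 := hpq.sub_one_pos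
  have hp := hpq.pos
  have hq := hpq.symm.pos
  have h1 := geo2 hpq T (fun i => Int.log 2 (a i)) hinj
  have hb1 : 1 < (2 : ℝ) ^ (p - 1) := Real.one_lt_rpow (by norm_num) hp1
  have hbm : 0 < (2 : ℝ) ^ (p - 1) - 1 := by linarith
  have h2 : ∑ i ∈ T, a i ^ (p - 1) ≤
      (2 : ℝ) ^ (p - 1) * ∑ i ∈ T, ((2 : ℝ) ^ Int.log 2 (a i)) ^ (p - 1) := by
    rw [Finset.mul_sum]
    refine Finset.sum_le_sum fun i hi => ?_
    rw [← Real.mul_rpow (by norm_num) (by positivity)]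
    refine Real.rpow_le_rpow (ha i hi).le ?_ hp1.le
    have := (Int.lt_zpow_succ_log_self (b := 2) (by norm_num) (a i)).le
    rw [zpow_add₀ (by norm_num)] at this
    push_cast at this
    linarith
  have h3 : ∑ i ∈ T, ((2 : ℝ) ^ Int.log 2 (a i)) ^ p ≤ ∑ i ∈ T, a i ^ p := by
    refine Finset.sum_le_sum fun i hi => ?_
    refine Real.rpow_le_rpow (by positivity) ?_ hp.le
    have := Int.zpow_log_le_self (b := 2) (by norm_num) (ha i hi)
    push_cast at this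
    exact this
  have h0 : 0 ≤ ∑ i ∈ T, a i ^ (p - 1) :=
    Finset.sum_nonneg fun i hi => (Real.rpow_pos_of_pos (ha i hi) _).le
  have h0' : 0 ≤ ∑ i ∈ T, ((2 : ℝ) ^ Int.log 2 (a i)) ^ (p - 1) :=
    Finset.sum_nonneg fun i hi => by positivity
  calc (∑ i ∈ T, a i ^ (p - 1)) ^ q
      ≤ ((2 : ℝ) ^ (p - 1) * ∑ i ∈ T, ((2 : ℝ) ^ Int.log 2 (a i)) ^ (p - 1)) ^ q :=
        Real.rpow_le_rpow h0 h2 hq.le
    _ = ((2 : ℝ) ^ (p - 1)) ^ q * (∑ i ∈ T, ((2 : ℝ) ^ Int.log 2 (a i)) ^ (p - 1)) ^ q :=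
        Real.mul_rpow (by positivity) h0'
    _ ≤ ((2 : ℝ) ^ (p - 1)) ^ q * (((2 : ℝ) ^ (p - 1) / ((2 : ℝ) ^ (p - 1) - 1)) ^ q *
        ∑ i ∈ T, ((2 : ℝ) ^ Int.log 2 (a i)) ^ p) := by gcongr
    _ ≤ ((2 : ℝ) ^ (p - 1)) ^ q * (((2 : ℝ) ^ (p - 1) / ((2 : ℝ) ^ (p - 1) - 1)) ^ q *
        ∑ i ∈ T, a i ^ p) := by gcongr
    _ = _ := by unfold KK; ring

variable {α : Type} [MeasurableSpace α]

/-- Records of a function on a laminar family. -/
def IsRec (S : Finset (Set α)) (k : Set α → ℤ) (F : Set α) : Prop :=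
  F ∈ S ∧ ∀ Q ∈ S, F ⊂ Q → k Q < k F

theorem exists_rec {S : Finset (Set α)} (hS : SLam S) (k : Set α → ℤ) {Q : Set α}
    (hQ : Q ∈ S) : ∃ F, IsRec S k F ∧ Q ⊆ F ∧ k Q ≤ k F ∧
      ∀ F', IsRec S k F' → Q ⊆ F' → F ⊆ F' := by
  classical
  set T := S.filter (fun A => Q ⊆ A) with hT
  have hTne : T.Nonempty := ⟨Q, by simp [hT, hQ]⟩
  obtain ⟨M, hM, hMmax⟩ := Finset.exists_max_image T k hTne
  set T' := T.filter (fun A => k A = k M) with hT'
  have hT'ne : T'.Nonempty := ⟨M, by simp [hT', hM]⟩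
  obtain ⟨F, hF⟩ := T'.exists_maximalFor (fun A : Set α => A) hT'ne
  have hFT' : F ∈ T' := hF.1
  have hF1 : F ∈ T := (Finset.mem_filter.1 hFT').1
  have hFk : k F = k M := (Finset.mem_filter.1 hFT').2
  have hFS : F ∈ S := (Finset.mem_filter.1 hF1).1
  have hQF : Q ⊆ F := (Finset.mem_filter.1 hF1).2
  refine ⟨F, ⟨hFS, ?_⟩, hQF, ?_, ?_⟩
  · intro A hA hFA
    have hAT : A ∈ T := by
      simp only [hT, Finset.mem_filter]
      exact ⟨hA, hQF.trans hFA.1⟩
    have h1 : k A ≤ k M := hMmax A hAT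
    rcases lt_or_eq_of_le h1 with h2 | h2
    · rw [hFk]; exact h2
    · exfalso
      have hAT' : A ∈ T' := by
        simp only [hT', Finset.mem_filter]
        exact ⟨hAT, h2⟩
      exact hFA.2 (hF.2 hAT' hFA.1)
  · rw [hFk]
    exact hMmax Q (by simp [hT, hQ])
  · intro F' hF' hQF'
    obtain ⟨x, hx⟩ := hS.2.1 Q hQ
    rcases hS.comp hFS hF'.1 (hQF hx) (hQF' hx) with h | h
    · exact h
    · exfalso
      have h1 := hF'.2 F hFS h
      have h2 : k F' ≤ k M := hMmax F' (by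
        simp only [hT, Finset.mem_filter]
        exact ⟨hF'.1, hQF'⟩)
      omega

/-- Carleson embedding along the records. -/
theorem carleson {p q : ℝ} (hpq : p.HolderConjugate q) (S : Finset (Set α)) (hS : SLam S)
    (μ : Measure α) (f : α → ℝ≥0∞) (hf : Measurable f) (a : Set α → ℝ)
    (ha : ∀ Q ∈ S, 0 < a Q) (hμ : ∀ Q ∈ S, μ Q ≠ ∞)
    (haI : ∀ Q ∈ S, ENNReal.ofReal (a Q) * μ Q = ∫⁻ y in Q, f y ∂μ)
    (R : Finset (Set α)) (hR : ∀ F ∈ R, IsRec S (fun Q => Int.log 2 (a Q)) F) :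
    ∑ F ∈ R, ENNReal.ofReal (a F) ^ p * μ F ≤
      2 * ENNReal.ofReal (((2 * KK p q) ^ (q⁻¹)) ^ p) * ∫⁻ y, f y ^ p ∂μ := by
  classical
  have hp := hpq.pos
  have hp1 := hpq.sub_one_pos
  have hq := hpq.symm.pos
  have hK := KK_pos hpq
  have hRS : ∀ F ∈ R, F ∈ S := fun F hF => (hR F hF).1
  have hRm : ∀ F ∈ R, MeasurableSet F := fun F hF => hS.1 F (hRS F hF)
  set A := ∑ F ∈ R, ENNReal.ofReal (a F) ^ p * μ F with hA
  have hAfin : A ≠ ∞ := by
    refine (ENNReal.sum_lt_top.2 fun F hF => ENNReal.mul_lt_top ?_ ?_).ne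
    · exact (ENNReal.rpow_ne_top_of_nonneg hp.le ENNReal.ofReal_ne_top).lt_top
    · exact (hμ F (hRS F hF)).lt_top
  -- A as an integral
  have h1 : A = ∫⁻ x, (∑ F ∈ R, F.indicator (fun _ => ENNReal.ofReal (a F) ^ (p - 1)) x) * f x
      ∂μ := by
    have h2 := dual μ R hRm (fun F => ENNReal.ofReal (a F) ^ (p - 1)) f hf Set.univ
      (fun _ _ => Set.subset_univ _)
    rw [Measure.restrict_univ] at h2
    rw [h2, hA]
    refine Finset.sum_congr rfl fun F hF => ?_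
    rw [← haI F (hRS F hF), ← mul_assoc]
    congr 1
    have h3 : ENNReal.ofReal (a F) ≠ 0 := by
      rw [Ne, ENNReal.ofReal_eq_zero, not_le]
      exact ha F (hRS F hF)
    conv_rhs => rw [← ENNReal.rpow_one (ENNReal.ofReal (a F)),
      ← ENNReal.rpow_mul, mul_comm, ← ENNReal.rpow_add _ _ h3 ENNReal.ofReal_ne_top]
    rw [one_mul, show (1 : ℝ) + (p - 1) = p by ring]
  have h2 : A = ∫⁻ x, ∑ F ∈ R, F.indicator (fun _ => ENNReal.ofReal (a F) ^ p) x ∂μ := by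
    have h2 := dual μ R hRm (fun F => ENNReal.ofReal (a F) ^ p) (fun _ => 1) measurable_const
      Set.univ (fun _ _ => Set.subset_univ _)
    simp only [mul_one, setLIntegral_one, Measure.restrict_univ] at h2
    rw [h2]
  -- pointwise
  have hpt : ∀ x, (∑ F ∈ R, F.indicator (fun _ => ENNReal.ofReal (a F) ^ (p - 1)) x) ^ q ≤
      ENNReal.ofReal (KK p q) * ∑ F ∈ R, F.indicator (fun _ => ENNReal.ofReal (a F) ^ p) x := by
    intro x
    rw [sum_ind, sum_ind]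
    have ha' : ∀ F ∈ R.filter (fun F => x ∈ F), 0 < a F := fun F hF =>
      ha F (hRS F (Finset.mem_filter.1 hF).1)
    have hinj : ∀ F ∈ R.filter (fun F => x ∈ F), ∀ G ∈ R.filter (fun F => x ∈ F),
        Int.log 2 (a F) = Int.log 2 (a G) → F = G := by
      intro F hF G hG hFG
      simp only [Finset.mem_filter] at hF hG
      have hF' := hR F hF.1
      have hG' := hR G hG.1
      rcases hS.comp hF'.1 hG'.1 hF.2 hG.2 with h | h
      · by_cases h' : F = G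
        · exact h'
        · have := hF'.2 G hG'.1 (lt_of_le_of_ne h h')
          simp only at this
          omega
      · have := hG'.2 F hF'.1 h
        simp only at this
        omega
    have g3 := geo3 hpq (R.filter (fun F => x ∈ F)) a ha' hinj
    have e1 : ∑ F ∈ R with x ∈ F, ENNReal.ofReal (a F) ^ (p - 1) =
        ENNReal.ofReal (∑ F ∈ R with x ∈ F, a F ^ (p - 1)) := by
      rw [ENNReal.ofReal_sum_of_nonneg fun F hF => (Real.rpow_pos_of_pos (ha' F hF) _).le]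
      refine Finset.sum_congr rfl fun F hF => ?_
      rw [ENNReal.ofReal_rpow_of_pos (ha' F hF)]
    have e2 : ∑ F ∈ R with x ∈ F, ENNReal.ofReal (a F) ^ p =
        ENNReal.ofReal (∑ F ∈ R with x ∈ F, a F ^ p) := by
      rw [ENNReal.ofReal_sum_of_nonneg fun F hF => (Real.rpow_pos_of_pos (ha' F hF) _).le]
      refine Finset.sum_congr rfl fun F hF => ?_
      rw [ENNReal.ofReal_rpow_of_pos (ha' F hF)]
    rw [e1, e2, ← ENNReal.ofReal_mul hK.le, ENNReal.ofReal_rpow_of_nonneg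
      (Finset.sum_nonneg fun F hF => (Real.rpow_pos_of_pos (ha' F hF) _).le) hq.le]
    exact ENNReal.ofReal_le_ofReal g3
  -- scaling constant
  set s : ℝ := (2 * KK p q) ^ (q⁻¹) with hs
  have hs0 : 0 < s := by positivity
  have hsE0 : ENNReal.ofReal s ≠ 0 := by
    rw [Ne, ENNReal.ofReal_eq_zero, not_le]; exact hs0
  have hsEt : ENNReal.ofReal s ≠ ∞ := ENNReal.ofReal_ne_top
  have hsq : ENNReal.ofReal s ^ q = 2 * ENNReal.ofReal (KK p q) := by
    rw [ENNReal.ofReal_rpow_of_pos hs0, hs, ← Real.rpow_mul (by positivity),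
      inv_mul_cancel₀ hq.ne', Real.rpow_one, ENNReal.ofReal_mul (by norm_num)]
    norm_num
  have hpt2 : ∀ x, (∑ F ∈ R, F.indicator (fun _ => ENNReal.ofReal (a F) ^ (p - 1)) x) * f x ≤
      (∑ F ∈ R, F.indicator (fun _ => ENNReal.ofReal (a F) ^ p) x) / 2 +
        ENNReal.ofReal (s ^ p) * f x ^ p := by
    intro x
    set u := ∑ F ∈ R, F.indicator (fun _ => ENNReal.ofReal (a F) ^ (p - 1)) x with hu
    calc u * f x = ((ENNReal.ofReal s)⁻¹ * u) * (ENNReal.ofReal s * f x) := by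
          rw [mul_mul_mul_comm, ENNReal.inv_mul_cancel hsE0 hsEt, one_mul]
      _ ≤ ((ENNReal.ofReal s)⁻¹ * u) ^ q + (ENNReal.ofReal s * f x) ^ p :=
          young' hpq.symm _ _
      _ = (ENNReal.ofReal s ^ q)⁻¹ * u ^ q + ENNReal.ofReal (s ^ p) * f x ^ p := by
          rw [ENNReal.mul_rpow_of_nonneg _ _ hq.le, ENNReal.mul_rpow_of_nonneg _ _ hp.le,
            ENNReal.inv_rpow, ENNReal.ofReal_rpow_of_pos hs0 (p := p)]
      _ ≤ _ := by
          refine add_le_add ?_ le_rfl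
          rw [hsq, ENNReal.div_eq_inv_mul]
          calc (2 * ENNReal.ofReal (KK p q))⁻¹ * u ^ q ≤ (2 * ENNReal.ofReal (KK p q))⁻¹ *
                (ENNReal.ofReal (KK p q) *
                  ∑ F ∈ R, F.indicator (fun _ => ENNReal.ofReal (a F) ^ p) x) := by
                gcongr
                exact hpt x
            _ = _ := by
                rw [ENNReal.mul_inv (Or.inl (by norm_num)) (Or.inl (by norm_num))]
                have hKE0 : ENNReal.ofReal (KK p q) ≠ 0 := by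
                  rw [Ne, ENNReal.ofReal_eq_zero, not_le]; exact hK
                rw [mul_assoc, ← mul_assoc (ENNReal.ofReal (KK p q))⁻¹,
                  ENNReal.inv_mul_cancel hKE0 ENNReal.ofReal_ne_top, one_mul]
  have hkey : A ≤ A / 2 + ENNReal.ofReal (s ^ p) * ∫⁻ y, f y ^ p ∂μ := by
    calc A = _ := h1
      _ ≤ ∫⁻ x, ((∑ F ∈ R, F.indicator (fun _ => ENNReal.ofReal (a F) ^ p) x) / 2 +
          ENNReal.ofReal (s ^ p) * f x ^ p) ∂μ := lintegral_mono hpt2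
      _ = _ := by
          have hm1 := meas_sum R hRm (fun F => ENNReal.ofReal (a F) ^ p)
          rw [lintegral_add_left (hm1.div_const 2), lintegral_const_mul _ (hf.pow_const p)]
          congr 1
          simp only [div_eq_mul_inv]
          rw [lintegral_mul_const _ hm1, ← h2]
  have := half_absorb hAfin hkey
  rw [mul_assoc]
  exact this

/-- sums over subfamilies attached to different indices -/
theorem sum_sum_le {β : Type} (A : Finset (Set α)) (B : Finset β)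
    (c : Set α → Finset β) (hc : ∀ a ∈ A, c a ⊆ B)
    (hdis : ∀ a ∈ A, ∀ a' ∈ A, a ≠ a' → Disjoint (c a) (c a')) (v : β → ℝ≥0∞) :
    ∑ a ∈ A, ∑ b ∈ c a, v b ≤ ∑ b ∈ B, v b := by
  classical
  rw [← Finset.sum_biUnion (fun a ha b hb hab => hdis a ha b hb hab)]
  refine Finset.sum_le_sum_of_subset ?_
  intro x hx
  obtain ⟨a, ha, hxa⟩ := Finset.mem_biUnion.1 hx
  exact hc a ha hxa

open Classical in
/-- One half of the dyadic `T1` theorem for positive operators. -/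
theorem oneSide {p q : ℝ} (hpq : p.HolderConjugate q) (S : Finset (Set α)) (hS : SLam S)
    (μ ν : Measure α) (f g : α → ℝ≥0∞) (hf : Measurable f) (hg : Measurable g)
    (c : Set α → ℝ≥0∞)
    (hμ0 : ∀ Q ∈ S, μ Q ≠ 0) (hμt : ∀ Q ∈ S, μ Q ≠ ∞)
    (hν0 : ∀ Q ∈ S, ν Q ≠ 0) (hνt : ∀ Q ∈ S, ν Q ≠ ∞)
    (hf0 : ∀ Q ∈ S, ∫⁻ y in Q, f y ∂μ ≠ 0) (hft : ∀ Q ∈ S, ∫⁻ y in Q, f y ∂μ ≠ ∞)
    (hcmp : ∀ Q ∈ S, ((∫⁻ y in Q, g y ∂ν) / ν Q) ^ q * ν Q ≤ ((∫⁻ y in Q, f y ∂μ) / μ Q) ^ p * μ Q)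
    (hT : ∀ R ∈ S, ∫⁻ x in R, (∑ Q ∈ S with Q ⊆ R, Q.indicator (fun _ => c Q * μ Q) x) ^ p ∂ν ≤
      μ R) :
    ∑ Q ∈ S, c Q * ((∫⁻ y in Q, f y ∂μ) * ∫⁻ y in Q, g y ∂ν) ≤
      2 * (2 * (2 * ENNReal.ofReal (((2 * KK p q) ^ (q⁻¹)) ^ p) * ∫⁻ y, f y ^ p ∂μ) +
        ∫⁻ y, g y ^ q ∂ν) := by
  have hp := hpq.pos
  have hp1 := hpq.sub_one_pos
  have hq := hpq.symm.pos
  set a : Set α → ℝ := fun Q => ((∫⁻ y in Q, f y ∂μ) / μ Q).toReal with ha_def
  have hat : ∀ Q ∈ S, (∫⁻ y in Q, f y ∂μ) / μ Q ≠ ∞ := fun Q hQ =>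
    (ENNReal.div_lt_top (hft Q hQ) (hμ0 Q hQ)).ne
  have ha0' : ∀ Q ∈ S, (∫⁻ y in Q, f y ∂μ) / μ Q ≠ 0 := fun Q hQ => by
    rw [Ne, ENNReal.div_eq_zero_iff]
    push Not
    exact ⟨hf0 Q hQ, hμt Q hQ⟩
  have ha : ∀ Q ∈ S, 0 < a Q := fun Q hQ => ENNReal.toReal_pos (ha0' Q hQ) (hat Q hQ)
  have haE : ∀ Q ∈ S, ENNReal.ofReal (a Q) = (∫⁻ y in Q, f y ∂μ) / μ Q := fun Q hQ =>
    ENNReal.ofReal_toReal (hat Q hQ)
  have haI : ∀ Q ∈ S, ENNReal.ofReal (a Q) * μ Q = ∫⁻ y in Q, f y ∂μ := fun Q hQ => by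
    rw [haE Q hQ, ENNReal.div_mul_cancel (hμ0 Q hQ) (hμt Q hQ)]
  set k : Set α → ℤ := fun Q => Int.log 2 (a Q) with hk_def
  choose! π hπ using fun Q (hQ : Q ∈ S) => exists_rec hS k hQ
  set R : Finset (Set α) := S.filter (IsRec S k) with hR_def
  have hRrec : ∀ F ∈ R, IsRec S k F := fun F hF => (Finset.mem_filter.1 hF).2
  have hRS : ∀ F ∈ R, F ∈ S := fun F hF => (Finset.mem_filter.1 hF).1
  have hπR : ∀ Q ∈ S, π Q ∈ R := fun Q hQ => by
    rw [hR_def, Finset.mem_filter]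
    exact ⟨(hπ Q hQ).1.1, (hπ Q hQ).1⟩
  have hakk : ∀ Q ∈ S, a Q ≤ 2 * a (π Q) := by
    intro Q hQ
    have h1 := (Int.lt_zpow_succ_log_self (b := 2) (by norm_num) (a Q)).le
    have h2 := Int.zpow_log_le_self (b := 2) (by norm_num) (ha (π Q) (hRS _ (hπR Q hQ)))
    have h3 : k Q ≤ k (π Q) := (hπ Q hQ).2.2.1
    simp only [hk_def] at h3
    rw [zpow_add₀ (by norm_num)] at h1
    push_cast at h1 h2
    have h4 : (2:ℝ) ^ Int.log 2 (a Q) ≤ 2 ^ Int.log 2 (a (π Q)) :=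
      zpow_le_zpow_right₀ (by norm_num) h3
    linarith
  -- the class function
  set φ : Set α → α → ℝ≥0∞ := fun F x => ∑ Q ∈ S.filter (fun Q => π Q = F),
    Q.indicator (fun _ => c Q * μ Q) x with hφ_def
  have hclm : ∀ F, ∀ Q ∈ S.filter (fun Q => π Q = F), MeasurableSet Q :=
    fun F Q h => hS.1 Q (Finset.mem_filter.1 h).1
  have hφm : ∀ F, Measurable (φ F) := fun F => meas_sum _ (hclm F) _
  -- Step 2
  have step2 : ∑ Q ∈ S, c Q * ((∫⁻ y in Q, f y ∂μ) * ∫⁻ y in Q, g y ∂ν) ≤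
      2 * ∑ F ∈ R, ENNReal.ofReal (a F) * ∫⁻ x in F, φ F x * g x ∂ν := by
    rw [← Finset.sum_fiberwise_of_maps_to (s := S) (t := R) (g := π) (fun Q hQ => hπR Q hQ),
      Finset.mul_sum]
    refine Finset.sum_le_sum fun F hF => ?_
    have h1 : ∫⁻ x in F, φ F x * g x ∂ν =
        ∑ Q ∈ S with π Q = F, (c Q * μ Q) * ∫⁻ y in Q, g y ∂ν := by
      refine dual ν _ (hclm F) (fun Q => c Q * μ Q) g hg F fun Q hQ => ?_
      rw [Finset.mem_filter] at hQ
      rw [← hQ.2]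
      exact (hπ Q hQ.1).2.1
    rw [h1, Finset.mul_sum, Finset.mul_sum]
    refine Finset.sum_le_sum fun Q hQ => ?_
    rw [Finset.mem_filter] at hQ
    rw [← haI Q hQ.1]
    have h2 := hakk Q hQ.1
    rw [hQ.2] at h2
    have h3 : ENNReal.ofReal (a Q) ≤ 2 * ENNReal.ofReal (a F) := by
      have := ENNReal.ofReal_le_ofReal h2
      rw [ENNReal.ofReal_mul (by norm_num)] at this
      refine this.trans (le_of_eq ?_)
      norm_num
    calc c Q * (ENNReal.ofReal (a Q) * μ Q * ∫⁻ y in Q, g y ∂ν)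
        = ENNReal.ofReal (a Q) * (c Q * μ Q * ∫⁻ y in Q, g y ∂ν) := by ring
      _ ≤ (2 * ENNReal.ofReal (a F)) * (c Q * μ Q * ∫⁻ y in Q, g y ∂ν) := by gcongr
      _ = _ := by ring
  -- children
  set ch : Set α → Finset (Set α) := fun F =>
    R.filter (fun F' => F' ⊂ F ∧ ∀ F'' ∈ R, F'' ⊂ F → F' ⊆ F'' → F' = F'') with hch_def
  set U : Set α → Set α := fun F => ⋃ A ∈ ch F, A with hU_def
  have hchR : ∀ F, ch F ⊆ R := fun F => Finset.filter_subset _ _
  have hinch : ∀ F ∈ R, ∀ F' ∈ R, F' ⊂ F → F' ⊆ U F := by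
    intro F hF F' hF' hFF'
    have hne : (R.filter (fun A => A ⊂ F ∧ F' ⊆ A)).Nonempty :=
      ⟨F', Finset.mem_filter.2 ⟨hF', hFF', subset_rfl⟩⟩
    obtain ⟨M, hM⟩ := (R.filter (fun A => A ⊂ F ∧ F' ⊆ A)).exists_maximalFor
      (fun A : Set α => A) hne
    have hM1 := Finset.mem_filter.1 hM.1
    have hMch : M ∈ ch F := by
      simp only [hch_def, Finset.mem_filter]
      refine ⟨hM1.1, hM1.2.1, ?_⟩
      intro F'' hF'' hF''F hMF''
      have := hM.2 (Finset.mem_filter.2 ⟨hF'', hF''F, hM1.2.2.trans hMF''⟩) hMF''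
      exact Set.Subset.antisymm hMF'' this
    intro x hx
    simp only [hU_def, Set.mem_iUnion]
    exact ⟨M, hMch, hM1.2.2 hx⟩
  have hUF : ∀ F, U F ⊆ F := by
    intro F x hx
    simp only [hU_def, Set.mem_iUnion] at hx
    obtain ⟨A, hA, hxA⟩ := hx
    simp only [hch_def, Finset.mem_filter] at hA
    exact hA.2.1.1 hxA
  have hchm : ∀ F, ∀ A ∈ ch F, MeasurableSet A := fun F A hA => hS.1 A (hRS A (hchR F hA))
  have hUm : ∀ F, MeasurableSet (U F) := fun F => Finset.measurableSet_biUnion _ (hchm F)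
  have hchdis : ∀ F, Set.PairwiseDisjoint (↑(ch F)) (id : Set α → Set α) := by
    intro F A hA B hB hAB
    have hA' := hA
    have hB' := hB
    simp only [hch_def, Finset.coe_filter, Set.mem_setOf_eq] at hA' hB'
    rcases hS.2.2 A (hRS A hA'.1) B (hRS B hB'.1) with h | h | h
    · exact absurd (hA'.2.2 B hB'.1 hB'.2.1 h) hAB
    · exact absurd (hB'.2.2 A hA'.1 hA'.2.1 h).symm hAB
    · exact h
  -- comparison in root form
  have hroot : ∀ Q ∈ S, ∫⁻ y in Q, g y ∂ν ≤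
      (ENNReal.ofReal (a Q) ^ p * μ Q) ^ (1 / q) * ν Q ^ (1 / p) := by
    intro Q hQ
    have h1 := hcmp Q hQ
    rw [← haE Q hQ] at h1
    have h2 := ENNReal.rpow_le_rpow h1 (z := 1 / q) (by positivity)
    rw [ENNReal.mul_rpow_of_nonneg _ _ (by positivity), ← ENNReal.rpow_mul,
      mul_one_div_cancel hq.ne', ENNReal.rpow_one] at h2
    have h3 : ν Q = ν Q ^ (1 / q) * ν Q ^ (1 / p) := by
      rw [← ENNReal.rpow_add _ _ (hν0 Q hQ) (hνt Q hQ)]
      have : 1 / q + 1 / p = 1 := by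
        have := hpq.symm.inv_add_inv_eq_one
        rw [one_div, one_div]; exact this
      rw [this, ENNReal.rpow_one]
    calc ∫⁻ y in Q, g y ∂ν = (∫⁻ y in Q, g y ∂ν) / ν Q * ν Q :=
          (ENNReal.div_mul_cancel (hν0 Q hQ) (hνt Q hQ)).symm
      _ = (∫⁻ y in Q, g y ∂ν) / ν Q * ν Q ^ (1 / q) * ν Q ^ (1 / p) := by
          conv_lhs => rw [h3]
          conv_rhs => rw [mul_assoc, ← h3]
          rw [← h3]
      _ ≤ _ := by gcongr
  -- Step 3
  have step3 : ∀ F ∈ R, ENNReal.ofReal (a F) * ∫⁻ x in F, φ F x * g x ∂ν ≤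
      ENNReal.ofReal (a F) ^ p * ∫⁻ x in F, φ F x ^ p ∂ν + ∫⁻ x in F \ U F, g x ^ q ∂ν
        + ∑ F' ∈ ch F, ENNReal.ofReal (a F') ^ p * μ F' := by
    intro F hF
    have hFm := hS.1 F (hRS F hF)
    have hsplit : ∀ w : α → ℝ≥0∞, ∫⁻ x in F, w x ∂ν =
        ∫⁻ x in F \ U F, w x ∂ν + ∑ F' ∈ ch F, ∫⁻ x in F', w x ∂ν := by
      intro w
      have h1 : ∑ F' ∈ ch F, ∫⁻ x in F', w x ∂ν = ∫⁻ x in U F, w x ∂ν :=
        (lintegral_biUnion_finset (hchdis F) (hchm F) w).symm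
      rw [h1, ← lintegral_union (hUm F) Set.disjoint_sdiff_left, Set.sdiff_union_of_subset (hUF F)]
    rw [hsplit, hsplit (fun x => φ F x ^ p), mul_add, mul_add, Finset.mul_sum, Finset.mul_sum]
    have h1 : ENNReal.ofReal (a F) * ∫⁻ x in F \ U F, φ F x * g x ∂ν ≤
        ENNReal.ofReal (a F) ^ p * ∫⁻ x in F \ U F, φ F x ^ p ∂ν +
          ∫⁻ x in F \ U F, g x ^ q ∂ν := by
      have hm1 : Measurable (fun x => φ F x * g x) := (hφm F).mul hg
      have hm2 : Measurable (fun x => φ F x ^ p) := (hφm F).pow_const p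
      rw [← lintegral_const_mul _ hm1, ← lintegral_const_mul _ hm2,
        ← lintegral_add_left (hm2.const_mul _)]
      refine lintegral_mono fun x => ?_
      have := young' hpq (ENNReal.ofReal (a F) * φ F x) (g x)
      rw [ENNReal.mul_rpow_of_nonneg _ _ hp.le] at this
      rw [← mul_assoc]
      exact this
    have h2 : ∀ F' ∈ ch F, ENNReal.ofReal (a F) * ∫⁻ x in F', φ F x * g x ∂ν ≤
        ENNReal.ofReal (a F) ^ p * ∫⁻ x in F', φ F x ^ p ∂ν +
          ENNReal.ofReal (a F') ^ p * μ F' := by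
      intro F' hF'
      have hF'R := hchR F hF'
      have hF'S := hRS F' hF'R
      have hF'F : F' ⊂ F := by
        simp only [hch_def, Finset.mem_filter] at hF'
        exact hF'.2.1
      set v : ℝ≥0∞ := ∑ Q ∈ (S.filter (fun Q => π Q = F)) with F' ⊆ Q, c Q * μ Q with hv
      have hconst : ∀ x ∈ F', φ F x = v := by
        intro x hx
        simp only [hφ_def, hv]
        rw [sum_ind]
        refine Finset.sum_congr ?_ (fun _ _ => rfl)
        refine Finset.filter_congr fun Q hQ => ?_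
        rw [Finset.mem_filter] at hQ
        constructor
        · intro hxQ
          rcases hS.comp hF'S hQ.1 hx hxQ with h | h
          · exact h
          · exfalso
            have h1 := (hπ Q hQ.1).2.2.2 F' (hRrec F' hF'R) h.1
            rw [hQ.2] at h1
            exact hF'F.2 h1
        · intro h; exact h hx
      have e1 : ∫⁻ x in F', φ F x * g x ∂ν = v * ∫⁻ x in F', g x ∂ν := by
        rw [← lintegral_const_mul _ hg]
        exact setLIntegral_congr_fun (hS.1 F' hF'S) fun x hx => by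
          simp only [hconst x hx]
      have e2 : ∫⁻ x in F', φ F x ^ p ∂ν = v ^ p * ν F' := by
        rw [← setLIntegral_const]
        exact setLIntegral_congr_fun (hS.1 F' hF'S) fun x hx => by
          simp only [hconst x hx]
      rw [e1, e2]
      have h3 := hroot F' hF'S
      calc ENNReal.ofReal (a F) * (v * ∫⁻ x in F', g x ∂ν)
          ≤ ENNReal.ofReal (a F) * (v * ((ENNReal.ofReal (a F') ^ p * μ F') ^ (1 / q) *
            ν F' ^ (1 / p))) := by gcongr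
        _ = (ENNReal.ofReal (a F) * v * ν F' ^ (1 / p)) *
            (ENNReal.ofReal (a F') ^ p * μ F') ^ (1 / q) := by ring
        _ ≤ (ENNReal.ofReal (a F) * v * ν F' ^ (1 / p)) ^ p +
            ((ENNReal.ofReal (a F') ^ p * μ F') ^ (1 / q)) ^ q := young' hpq _ _
        _ = _ := by
            rw [ENNReal.mul_rpow_of_nonneg _ _ hp.le, ENNReal.mul_rpow_of_nonneg _ _ hp.le,
              ← ENNReal.rpow_mul, ← ENNReal.rpow_mul, one_div_mul_cancel hp.ne',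
              one_div_mul_cancel hq.ne', ENNReal.rpow_one, ENNReal.rpow_one]
            ring
    calc _ ≤ (ENNReal.ofReal (a F) ^ p * ∫⁻ x in F \ U F, φ F x ^ p ∂ν +
          ∫⁻ x in F \ U F, g x ^ q ∂ν) + ∑ F' ∈ ch F,
          (ENNReal.ofReal (a F) ^ p * ∫⁻ x in F', φ F x ^ p ∂ν +
            ENNReal.ofReal (a F') ^ p * μ F') := add_le_add h1 (Finset.sum_le_sum h2)
      _ = _ := by
          rw [Finset.sum_add_distrib]
          ring
  -- Step 4
  have hcarl := carleson hpq S hS μ f hf a ha hμt haI R hRrec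
  set CK : ℝ≥0∞ := 2 * ENNReal.ofReal (((2 * KK p q) ^ (q⁻¹)) ^ p) * ∫⁻ y, f y ^ p ∂μ with hCK
  have s1 : ∑ F ∈ R, ENNReal.ofReal (a F) ^ p * ∫⁻ x in F, φ F x ^ p ∂ν ≤ CK := by
    refine le_trans (Finset.sum_le_sum fun F hF => ?_) hcarl
    gcongr
    refine le_trans ?_ (hT F (hRS F hF))
    refine lintegral_mono fun x => ENNReal.rpow_le_rpow ?_ hp.le
    refine Finset.sum_le_sum_of_subset ?_
    intro Q hQ
    rw [Finset.mem_filter] at hQ ⊢
    refine ⟨hQ.1, ?_⟩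
    rw [← hQ.2]
    exact (hπ Q hQ.1).2.1
  have s2 : ∑ F ∈ R, ∫⁻ x in F \ U F, g x ^ q ∂ν ≤ ∫⁻ x, g x ^ q ∂ν := by
    rw [← lintegral_biUnion_finset]
    · exact setLIntegral_le_lintegral _ _
    · intro F hF G hG hFG
      rw [Function.onFun, Set.disjoint_left]
      intro x hx hx'
      rcases hS.comp (hRS F hF) (hRS G hG) hx.1 hx'.1 with h | h
      · exact hx'.2 (hinch G hG F hF (lt_of_le_of_ne h hFG) hx.1)
      · exact hx.2 (hinch F hF G hG h hx'.1)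
    · intro F hF
      exact (hS.1 F (hRS F hF)).diff (hUm F)
  have s3 : ∑ F ∈ R, ∑ F' ∈ ch F, ENNReal.ofReal (a F') ^ p * μ F' ≤ CK := by
    refine le_trans ?_ hcarl
    refine sum_sum_le R R ch (fun F _ => hchR F) ?_ _
    intro F hF G hG hFG
    rw [Finset.disjoint_left]
    intro A hA hA'
    simp only [hch_def, Finset.mem_filter] at hA hA'
    obtain ⟨x, hx⟩ := hS.2.1 A (hRS A hA.1)
    rcases hS.comp (hRS F hF) (hRS G hG) (hA.2.1.1 hx) (hA'.2.1.1 hx) with h | h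
    · have := hA'.2.2 F hF (lt_of_le_of_ne h hFG) hA.2.1.1
      exact (lt_irrefl A) (this ▸ hA.2.1)
    · have := hA.2.2 G hG h hA'.2.1.1
      exact (lt_irrefl A) (this ▸ hA'.2.1)
  refine step2.trans ?_
  gcongr
  calc ∑ F ∈ R, ENNReal.ofReal (a F) * ∫⁻ x in F, φ F x * g x ∂ν
      ≤ ∑ F ∈ R, (ENNReal.ofReal (a F) ^ p * ∫⁻ x in F, φ F x ^ p ∂ν +
        ∫⁻ x in F \ U F, g x ^ q ∂ν + ∑ F' ∈ ch F, ENNReal.ofReal (a F') ^ p * μ F') :=
        Finset.sum_le_sum step3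
    _ = ∑ F ∈ R, ENNReal.ofReal (a F) ^ p * ∫⁻ x in F, φ F x ^ p ∂ν +
        ∑ F ∈ R, ∫⁻ x in F \ U F, g x ^ q ∂ν +
        ∑ F ∈ R, ∑ F' ∈ ch F, ENNReal.ofReal (a F') ^ p * μ F' := by
        rw [Finset.sum_add_distrib, Finset.sum_add_distrib]
    _ ≤ CK + ∫⁻ x, g x ^ q ∂ν + CK := add_le_add (add_le_add s1 s2) s3
    _ = _ := by ring

open Classical in
/-- Two testing conditions imply the strong type `(p,p)` bound for positive operators on a finite
laminar family. -/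
theorem strongTest {p q : ℝ} (hpq : p.HolderConjugate q) : ∃ C : ℝ≥0,
    ∀ {α : Type} [MeasurableSpace α] (vol μ ν : Measure α) (S : Finset (Set α)), SLam S →
    (∀ Q ∈ S, 0 < vol Q ∧ vol Q < ∞) → (∀ Q ∈ S, μ Q < ∞) → (∀ Q ∈ S, ν Q < ∞) → ∀ T : ℝ≥0,
    (∀ R ∈ S, ∫⁻ x in R, (∑ Q ∈ S with Q ⊆ R, Q.indicator (fun _ => μ Q / vol Q) x) ^ p ∂ν ≤
      (T : ℝ≥0∞) ^ p * μ R) →
    (∀ R ∈ S, ∫⁻ x in R, (∑ Q ∈ S with Q ⊆ R, Q.indicator (fun _ => ν Q / vol Q) x) ^ q ∂μ ≤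
      (T : ℝ≥0∞) ^ q * ν R) →
    ∀ f : α → ℝ≥0∞, Measurable f →
    ∫⁻ x, (∑ Q ∈ S, Q.indicator (fun _ => (∫⁻ y in Q, f y ∂μ) / vol Q) x) ^ p ∂ν ≤
      C * (T : ℝ≥0∞) ^ p * ∫⁻ y, f y ^ p ∂μ := by
  have hp := hpq.pos
  have hp1 := hpq.sub_one_pos
  have hq := hpq.symm.pos
  set K1 : ℝ≥0∞ := 2 * ENNReal.ofReal (((2 * KK p q) ^ (q⁻¹)) ^ p) with hK1
  set K2 : ℝ≥0∞ := 2 * ENNReal.ofReal (((2 * KK q p) ^ (p⁻¹)) ^ q) with hK2
  obtain ⟨D, hD1, hD2, hD0⟩ : ∃ D : ℝ≥0, 4 * K1 + 2 ≤ (D : ℝ≥0∞) ∧ 4 * K2 + 2 ≤ (D : ℝ≥0∞) ∧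
      D ≠ 0 := by
    have h1 : 4 * K1 + 4 * K2 + 2 ≠ ∞ := by
      rw [hK1, hK2]
      finiteness
    refine ⟨(4 * K1 + 4 * K2 + 2).toNNReal, ?_, ?_, ?_⟩
    · rw [ENNReal.coe_toNNReal h1]
      gcongr
      exact le_self_add
    · rw [ENNReal.coe_toNNReal h1]
      gcongr
      exact le_add_self
    · rw [Ne, ENNReal.toNNReal_eq_zero_iff]
      push Not
      refine ⟨?_, h1⟩
      simp
  refine ⟨(2 * D) ^ p, ?_⟩
  intro α _ vol μ ν S hS hvol hμ hν T hT1 hT2 f hf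
  set F : Set α → ℝ≥0∞ := fun Q => ∫⁻ y in Q, f y ∂μ with hF
  set A : α → ℝ≥0∞ := fun x => ∑ Q ∈ S, Q.indicator (fun _ => F Q / vol Q) x with hA
  have hAm : Measurable A := meas_sum S hS.1 _
  show ∫⁻ x, A x ^ p ∂ν ≤ _
  by_cases hT0 : T = 0
  · have h1 : ∀ R ∈ S, μ R = 0 ∨ ν R = 0 := by
      intro R hR
      have h2 := hT1 R hR
      rw [hT0, ENNReal.coe_zero, ENNReal.zero_rpow_of_pos hp, zero_mul] at h2
      have h3 : (μ R / vol R) ^ p * ν R ≤ 0 := by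
        refine le_trans ?_ h2
        calc (μ R / vol R) ^ p * ν R = ∫⁻ x in R, (μ R / vol R) ^ p ∂ν := by
              rw [setLIntegral_const]
          _ ≤ _ := by
              refine setLIntegral_mono' (hS.1 R hR) fun x hx => ?_
              refine ENNReal.rpow_le_rpow ?_ hp.le
              have : μ R / vol R = R.indicator (fun _ => μ R / vol R) x := by simp [hx]
              rw [this]
              exact Finset.single_le_sum (f := fun Q : Set α =>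
                Q.indicator (fun _ => μ Q / vol Q) x) (fun _ _ => bot_le)
                (Finset.mem_filter.2 ⟨hR, subset_rfl⟩)
      have h4 := nonpos_iff_eq_zero.1 h3
      rcases mul_eq_zero.1 h4 with h5 | h5
      · left
        rw [ENNReal.rpow_eq_zero_iff_of_pos hp, ENNReal.div_eq_zero_iff] at h5
        rcases h5 with h5 | h5
        · exact h5
        · exact absurd h5 (hvol R hR).2.ne
      · exact Or.inr h5
    have h2 : ∀ᵐ x ∂ν, A x = 0 := by
      have h3 : {x | ¬ A x = 0} ⊆ ⋃ Q ∈ S.filter (fun Q => ν Q = 0), Q := by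
        intro x hx
        by_contra hcon
        simp only [Set.mem_iUnion, not_exists, Finset.mem_filter] at hcon
        apply hx
        simp only [hA]
        refine Finset.sum_eq_zero fun Q hQ => ?_
        by_cases hxQ : x ∈ Q
        · rw [Set.indicator_of_mem hxQ]
          rcases h1 Q hQ with h5 | h5
          · simp only [hF]
            rw [setLIntegral_measure_zero _ _ h5, ENNReal.zero_div]
          · exact absurd hxQ (hcon Q ⟨hQ, h5⟩)
        · exact Set.indicator_of_notMem hxQ _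
      refine measure_mono_null h3 (le_antisymm ?_ bot_le)
      refine (measure_biUnion_finset_le _ _).trans (le_of_eq ?_)
      exact Finset.sum_eq_zero fun Q hQ => (Finset.mem_filter.1 hQ).2
    have h3 : ∫⁻ x, A x ^ p ∂ν = 0 := by
      rw [lintegral_congr_ae (g := fun _ => 0) (h2.mono fun x hx => by
        simp only [hx, ENNReal.zero_rpow_of_pos hp]), lintegral_zero]
    rw [h3]
    exact bot_le
  have hTne : (T : ℝ≥0∞) ≠ 0 := ENNReal.coe_ne_zero.2 hT0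
  have hCpos : (((2 * D) ^ p : ℝ≥0) : ℝ≥0∞) ≠ 0 := by
    rw [ENNReal.coe_ne_zero]
    have : 0 < D := pos_iff_ne_zero.2 hD0
    positivity
  by_cases hI : ∫⁻ y, f y ^ p ∂μ = ∞
  · rw [hI, ENNReal.mul_top]
    · exact le_top
    · refine mul_ne_zero hCpos ?_
      exact (ENNReal.rpow_pos (pos_iff_ne_zero.2 hTne) ENNReal.coe_ne_top).ne'
  have hFt : ∀ Q ∈ S, F Q ≠ ∞ := fun Q hQ => lint_fin hpq.lt.le (hμ Q hQ).ne hI
  -- the function B
  set t : ℝ≥0∞ := 2 * D * T with ht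
  have ht0 : t ≠ 0 := mul_ne_zero (mul_ne_zero (by norm_num) (ENNReal.coe_ne_zero.2 hD0)) hTne
  have htt : t ≠ ∞ := by rw [ht]; finiteness
  set B : α → ℝ≥0∞ := fun x => A x / t with hB
  have hBm : Measurable B := hAm.div_const t
  have hAB : ∀ x, A x = t * B x := fun x => by
    simp only [hB]
    rw [ENNReal.mul_div_cancel ht0 htt]
  set g : α → ℝ≥0∞ := fun x => B x ^ (p - 1) with hg
  have hgm : Measurable g := hBm.pow_const _
  have hgq : ∀ x, g x ^ q = B x ^ p := fun x => by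
    simp only [hg]
    rw [← ENNReal.rpow_mul, hpq.sub_one_mul_conj]
  have hAg : ∀ x, A x * g x = t * B x ^ p := fun x => by
    rw [hAB x]
    simp only [hg]
    rw [mul_assoc]
    congr 1
    conv_lhs => rw [← ENNReal.rpow_one (B x), ← ENNReal.rpow_mul,
      ← ENNReal.rpow_add_of_nonneg _ _ (by norm_num) (by linarith)]
    rw [one_mul, show (1 : ℝ) + (p - 1) = p by ring]
  set N : ℝ≥0∞ := ∫⁻ x, B x ^ p ∂ν with hN
  have hNfin : N ≠ ∞ := by
    have h1 : N ≤ ((∑ Q ∈ S, F Q / vol Q) / t) ^ p * ∑ Q ∈ S, ν Q := by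
      have h2 : ∀ x, B x ^ p ≤ ∑ Q ∈ S, Q.indicator
          (fun _ => ((∑ Q ∈ S, F Q / vol Q) / t) ^ p) x := by
        intro x
        by_cases hx : ∃ Q ∈ S, x ∈ Q
        · obtain ⟨Q, hQ, hxQ⟩ := hx
          refine le_trans ?_ (Finset.single_le_sum (f := fun Q : Set α => Q.indicator
            (fun _ => ((∑ Q ∈ S, F Q / vol Q) / t) ^ p) x) (fun _ _ => bot_le) hQ)
          rw [Set.indicator_of_mem hxQ]
          refine ENNReal.rpow_le_rpow ?_ hp.le
          simp only [hB]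
          gcongr
          simp only [hA]
          refine Finset.sum_le_sum fun Q _ => ?_
          exact Set.indicator_le_self' (fun _ _ => bot_le) _
        · have h3 : A x = 0 := by
            simp only [hA]
            refine Finset.sum_eq_zero fun Q hQ => ?_
            exact Set.indicator_of_notMem (fun h => hx ⟨Q, hQ, h⟩) _
          simp only [hB]
          rw [h3, ENNReal.zero_div, ENNReal.zero_rpow_of_pos hp]
          exact bot_le
      refine (lintegral_mono h2).trans (le_of_eq ?_)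
      have h3 := dual ν S hS.1 (fun _ => ((∑ Q ∈ S, F Q / vol Q) / t) ^ p) (fun _ => 1)
        measurable_const Set.univ (fun _ _ => Set.subset_univ _)
      simp only [mul_one, setLIntegral_one, Measure.restrict_univ] at h3
      rw [h3, Finset.mul_sum]
    refine (lt_of_le_of_lt h1 (ENNReal.mul_lt_top ?_ ?_)).ne
    · refine (ENNReal.rpow_ne_top_of_nonneg hp.le ?_).lt_top
      refine (ENNReal.div_lt_top ?_ ht0).ne
      refine (ENNReal.sum_lt_top.2 fun Q hQ => ?_).ne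
      exact ENNReal.div_lt_top (hFt Q hQ) (hvol Q hQ).1.ne'
    · exact ENNReal.sum_lt_top.2 fun Q hQ => hν Q hQ
  have hIg : ∫⁻ x, g x ^ q ∂ν = N := by
    rw [hN]
    exact lintegral_congr hgq
  set G : Set α → ℝ≥0∞ := fun Q => ∫⁻ y in Q, g y ∂ν with hG
  have hGt : ∀ Q ∈ S, G Q ≠ ∞ := fun Q hQ =>
    lint_fin hpq.symm.lt.le (hν Q hQ).ne (by rw [hIg]; exact hNfin)
  set c : Set α → ℝ≥0∞ := fun Q => (T : ℝ≥0∞)⁻¹ * (vol Q)⁻¹ with hc
  -- the bilinear form
  have hLam : ∑ Q ∈ S, c Q * (F Q * G Q) = 2 * D * N := by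
    have h1 := dual ν S hS.1 (fun Q => F Q / vol Q) g hgm Set.univ (fun _ _ => Set.subset_univ _)
    rw [Measure.restrict_univ] at h1
    have h2 : ∫⁻ x, (∑ Q ∈ S, Q.indicator (fun _ => F Q / vol Q) x) * g x ∂ν = t * N := by
      rw [hN, ← lintegral_const_mul _ (hBm.pow_const p)]
      exact lintegral_congr hAg
    calc ∑ Q ∈ S, c Q * (F Q * G Q) = (T : ℝ≥0∞)⁻¹ * ∑ Q ∈ S, F Q / vol Q * G Q := by
          rw [Finset.mul_sum]
          refine Finset.sum_congr rfl fun Q _ => ?_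
          simp only [hc]
          rw [div_eq_mul_inv]
          ring
      _ = (T : ℝ≥0∞)⁻¹ * (t * N) := by rw [← h2, h1]
      _ = (T : ℝ≥0∞)⁻¹ * T * (2 * D * N) := by rw [ht]; ring
      _ = 2 * D * N := by rw [ENNReal.inv_mul_cancel hTne ENNReal.coe_ne_top, one_mul]
  -- testing conditions with constant one
  have htest : ∀ (r : ℝ) (hr : 0 < r) (σ τ : Measure α),
      (∀ R ∈ S, ∫⁻ x in R, (∑ Q ∈ S with Q ⊆ R, Q.indicator (fun _ => σ Q / vol Q) x) ^ r ∂τ ≤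
      (T : ℝ≥0∞) ^ r * σ R) → ∀ S' ⊆ S, ∀ R ∈ S',
      ∫⁻ x in R, (∑ Q ∈ S' with Q ⊆ R, Q.indicator (fun _ => c Q * σ Q) x) ^ r ∂τ ≤ σ R := by
    intro r hr σ τ hT S' hS' R hR
    have h1 : ∀ x, (∑ Q ∈ S' with Q ⊆ R, Q.indicator (fun _ => c Q * σ Q) x) ^ r ≤
        ((T : ℝ≥0∞)⁻¹) ^ r * (∑ Q ∈ S with Q ⊆ R, Q.indicator (fun _ => σ Q / vol Q) x) ^ r := by
      intro x
      rw [← ENNReal.mul_rpow_of_nonneg _ _ hr.le]
      refine ENNReal.rpow_le_rpow ?_ hr.le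
      rw [Finset.mul_sum]
      refine (Finset.sum_le_sum_of_subset (Finset.filter_subset_filter _ hS')).trans ?_
      refine Finset.sum_le_sum fun Q _ => ?_
      by_cases hxQ : x ∈ Q
      · rw [Set.indicator_of_mem hxQ, Set.indicator_of_mem hxQ]
        simp only [hc]
        rw [div_eq_mul_inv]
        exact le_of_eq (by ring)
      · rw [Set.indicator_of_notMem hxQ]
        exact bot_le
    calc _ ≤ ∫⁻ x in R, ((T : ℝ≥0∞)⁻¹) ^ r *
          (∑ Q ∈ S with Q ⊆ R, Q.indicator (fun _ => σ Q / vol Q) x) ^ r ∂τ := lintegral_mono h1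
      _ = ((T : ℝ≥0∞)⁻¹) ^ r * ∫⁻ x in R,
          (∑ Q ∈ S with Q ⊆ R, Q.indicator (fun _ => σ Q / vol Q) x) ^ r ∂τ := by
          rw [lintegral_const_mul]
          exact (meas_sum _ (fun Q hQ => hS.1 Q (Finset.mem_filter.1 hQ).1) _).pow_const r
      _ ≤ ((T : ℝ≥0∞)⁻¹) ^ r * ((T : ℝ≥0∞) ^ r * σ R) := by
          gcongr
          exact hT R (hS' hR)
      _ = σ R := by
          rw [← mul_assoc, ← ENNReal.mul_rpow_of_nonneg _ _ hr.le,
            ENNReal.inv_mul_cancel hTne ENNReal.coe_ne_top, ENNReal.one_rpow, one_mul]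
  set S₀ := S.filter (fun Q => F Q ≠ 0 ∧ G Q ≠ 0) with hS₀
  have hsub0 : S₀ ⊆ S := Finset.filter_subset _ _
  set P : Set α → Prop := fun Q => (G Q / ν Q) ^ q * ν Q ≤ (F Q / μ Q) ^ p * μ Q with hP
  have h0 : ∑ Q ∈ S, c Q * (F Q * G Q) = ∑ Q ∈ S₀, c Q * (F Q * G Q) := by
    symm
    refine Finset.sum_subset hsub0 fun Q hQ hQ' => ?_
    rw [hS₀, Finset.mem_filter, not_and, not_and_or, not_not, not_not] at hQ'
    rcases hQ' hQ with h | h
    · rw [h, zero_mul, mul_zero]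
    · rw [h, mul_zero, mul_zero]
  have hμ0 : ∀ Q ∈ S₀, μ Q ≠ 0 := by
    intro Q hQ h
    exact (Finset.mem_filter.1 hQ).2.1 (setLIntegral_measure_zero _ _ h)
  have hν0 : ∀ Q ∈ S₀, ν Q ≠ 0 := by
    intro Q hQ h
    exact (Finset.mem_filter.1 hQ).2.2 (setLIntegral_measure_zero _ _ h)
  have hs1 : S₀.filter P ⊆ S := (Finset.filter_subset _ _).trans hsub0
  have hs2 : S₀.filter (fun Q => ¬ P Q) ⊆ S := (Finset.filter_subset _ _).trans hsub0
  have a1 := oneSide hpq (S₀.filter P) (hS.mono hs1) μ ν f g hf hgm c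
    (fun Q hQ => hμ0 Q (Finset.filter_subset _ _ hQ)) (fun Q hQ => (hμ Q (hs1 hQ)).ne)
    (fun Q hQ => hν0 Q (Finset.filter_subset _ _ hQ)) (fun Q hQ => (hν Q (hs1 hQ)).ne)
    (fun Q hQ => (Finset.mem_filter.1 (Finset.filter_subset _ _ hQ)).2.1)
    (fun Q hQ => hFt Q (hs1 hQ)) (fun Q hQ => (Finset.mem_filter.1 hQ).2)
    (htest p hp μ ν hT1 _ hs1)
  have a2 := oneSide hpq.symm (S₀.filter (fun Q => ¬ P Q)) (hS.mono hs2) ν μ g f hgm hf c
    (fun Q hQ => hν0 Q (Finset.filter_subset _ _ hQ)) (fun Q hQ => (hν Q (hs2 hQ)).ne)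
    (fun Q hQ => hμ0 Q (Finset.filter_subset _ _ hQ)) (fun Q hQ => (hμ Q (hs2 hQ)).ne)
    (fun Q hQ => (Finset.mem_filter.1 (Finset.filter_subset _ _ hQ)).2.2)
    (fun Q hQ => hGt Q (hs2 hQ)) (fun Q hQ => (not_le.1 (Finset.mem_filter.1 hQ).2).le)
    (htest q hq ν μ hT2 _ hs2)
  rw [← hK1, hIg] at a1
  rw [← hK2, hIg] at a2
  set I := ∫⁻ y, f y ^ p ∂μ with hIdef
  have hmain : 2 * D * N ≤ D * I + D * N := by
    rw [← hLam, h0, ← Finset.sum_filter_add_sum_filter_not S₀ P]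
    have e2 : ∑ Q ∈ S₀ with ¬ P Q, c Q * (F Q * G Q) =
        ∑ Q ∈ S₀ with ¬ P Q, c Q * (G Q * F Q) :=
      Finset.sum_congr rfl fun Q _ => by rw [mul_comm (F Q)]
    rw [e2]
    refine (add_le_add a1 a2).trans ?_
    calc 2 * (2 * (K1 * I) + N) + 2 * (2 * (K2 * N) + I)
        = (4 * K1 + 2) * I + (4 * K2 + 2) * N := by ring
      _ ≤ D * I + D * N := by gcongr
  have hN1 : N ≤ I := by
    have hD' : (D : ℝ≥0∞) ≠ 0 := ENNReal.coe_ne_zero.2 hD0
    have h1 : (D : ℝ≥0∞) * N + D * N ≤ D * I + D * N := by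
      calc (D : ℝ≥0∞) * N + D * N = 2 * D * N := by ring
        _ ≤ _ := hmain
    have h2 := (ENNReal.add_le_add_iff_right (ENNReal.mul_ne_top ENNReal.coe_ne_top hNfin)).1 h1
    exact (ENNReal.mul_le_mul_iff_right hD' ENNReal.coe_ne_top).1 h2
  calc ∫⁻ x, A x ^ p ∂ν = ∫⁻ x, t ^ p * B x ^ p ∂ν := by
        refine lintegral_congr fun x => ?_
        rw [hAB x, ENNReal.mul_rpow_of_nonneg _ _ hp.le]
    _ = t ^ p * N := by rw [lintegral_const_mul _ (hBm.pow_const p)]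
    _ ≤ t ^ p * I := by gcongr
    _ = _ := by
        rw [ht, ENNReal.mul_rpow_of_nonneg _ _ hp.le, ENNReal.coe_rpow_of_nonneg _ hp.le,
          ENNReal.coe_mul, ENNReal.coe_ofNat]

end Pool.Agent.TH304.RI.J595
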