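import Pool.Agent.TH304.RI.Base

set_option autoImplicit false

open MeasureTheory
open scoped ENNReal NNReal
open Pool.Agent.H433R3.Sep

namespace Pool.Agent.TH304.RI.J596

variable {α : Type} [MeasurableSpace α]

open Classical in
/-- sum over the ancestors (weak) -/
noncomputable def aS (S : Finset (Set α)) (c : Set α → ℝ≥0∞) (Q : Set α) : ℝ≥0∞ :=
  ∑ Q' ∈ S with Q ⊆ Q', c Q'

open Classical in
/-- sum over the strict ancestors -/
noncomputable def bS (S : Finset (Set α)) (c : Set α → ℝ≥0∞) (Q : Set α) : ℝ≥0∞ :=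
  ∑ Q' ∈ S with Q ⊂ Q', c Q'

/-- the operator -/
noncomputable def A (S : Finset (Set α)) (c : Set α → ℝ≥0∞) (x : α) : ℝ≥0∞ :=
  ∑ Q ∈ S, Q.indicator (fun _ => c Q) x

open Classical in
/-- stopping sets -/
noncomputable def M (S : Finset (Set α)) (c : Set α → ℝ≥0∞) (lam : ℝ≥0∞) : Finset (Set α) :=
  S.filter (fun Q => bS S c Q ≤ lam ∧ lam < aS S c Q)

theorem aS_le_bS (S : Finset (Set α)) (c : Set α → ℝ≥0∞) {P Q : Set α} (h : P ⊂ Q) :
    aS S c Q ≤ bS S c P := by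
  classical
  unfold aS bS
  refine Finset.sum_le_sum_of_subset ?_
  intro R hR
  rw [Finset.mem_filter] at hR ⊢
  exact ⟨hR.1, lt_of_lt_of_le h hR.2⟩

theorem M_disj {S : Finset (Set α)} (hS : SLam S) (c : Set α → ℝ≥0∞) (lam : ℝ≥0∞) {P Q : Set α}
    (hP : P ∈ M S c lam) (hQ : Q ∈ M S c lam) (hne : P ≠ Q) : Disjoint P Q := by
  classical
  unfold M at hP hQ
  rw [Finset.mem_filter] at hP hQ
  rcases hS.2.2 P hP.1 Q hQ.1 with h | h | h
  · have h1 : P ⊂ Q := lt_of_le_of_ne h hne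
    exact absurd (((aS_le_bS S c h1).trans hP.2.1)) (not_le.2 hQ.2.2)
  · have h1 : Q ⊂ P := lt_of_le_of_ne h hne.symm
    exact absurd (((aS_le_bS S c h1).trans hQ.2.1)) (not_le.2 hP.2.2)
  · exact h

theorem M_sub {S : Finset (Set α)} (c : Set α → ℝ≥0∞) (lam : ℝ≥0∞) {Q : Set α}
    (hQ : Q ∈ M S c lam) {x : α} (hx : x ∈ Q) : lam < A S c x := by
  classical
  unfold M at hQ
  rw [Finset.mem_filter] at hQ
  refine lt_of_lt_of_le hQ.2.2 ?_
  unfold A aS
  rw [sum_ind]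
  refine Finset.sum_le_sum_of_subset ?_
  intro R hR
  rw [Finset.mem_filter] at hR ⊢
  exact ⟨hR.1, hR.2 hx⟩

theorem M_cover {S : Finset (Set α)} (hS : SLam S) (c : Set α → ℝ≥0∞) (lam : ℝ≥0∞) {x : α}
    (hx : lam < A S c x) : ∃ Q ∈ M S c lam, x ∈ Q := by
  classical
  set W := S.filter (fun Q => x ∈ Q) with hW
  have hAx : A S c x = ∑ Q ∈ W, c Q := by
    unfold A
    rw [sum_ind]
  have hWne : W.Nonempty := by
    by_contra h
    rw [Finset.not_nonempty_iff_eq_empty] at h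
    rw [hAx, h, Finset.sum_empty] at hx
    exact absurd hx (not_lt.2 bot_le)
  obtain ⟨Q0, hQ0⟩ := W.exists_minimalFor (fun A : Set α => A) hWne
  have hQ0W : Q0 ∈ W := hQ0.1
  have hQ0' := Finset.mem_filter.1 hQ0W
  have haQ0 : aS S c Q0 = A S c x := by
    rw [hAx]
    unfold aS
    refine Finset.sum_congr ?_ fun _ _ => rfl
    ext R
    rw [hW, Finset.mem_filter, Finset.mem_filter]
    refine ⟨fun h => ⟨h.1, h.2 hQ0'.2⟩, fun h => ⟨h.1, ?_⟩⟩
    rcases hS.comp hQ0'.1 h.1 hQ0'.2 h.2 with h1 | h1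
    · exact h1
    · exact hQ0.2 (Finset.mem_filter.2 h) h1.le
  set W' := W.filter (fun Q => lam < aS S c Q) with hW'
  have hW'ne : W'.Nonempty := ⟨Q0, Finset.mem_filter.2 ⟨hQ0W, by rw [haQ0]; exact hx⟩⟩
  obtain ⟨Q, hQ⟩ := W'.exists_maximalFor (fun A : Set α => A) hW'ne
  have hQW' : Q ∈ W' := hQ.1
  have hQ1 := Finset.mem_filter.1 hQW'
  have hQ2 := Finset.mem_filter.1 hQ1.1
  refine ⟨Q, ?_, hQ2.2⟩
  unfold M
  rw [Finset.mem_filter]
  refine ⟨hQ2.1, ?_, hQ1.2⟩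
  by_cases hne : (S.filter (fun Q' => Q ⊂ Q')).Nonempty
  · obtain ⟨P, hP⟩ := (S.filter (fun Q' => Q ⊂ Q')).exists_minimalFor (fun A : Set α => A) hne
    have hP1 := Finset.mem_filter.1 hP.1
    have hxP : x ∈ P := hP1.2.1 hQ2.2
    have h1 : bS S c Q = aS S c P := by
      unfold bS aS
      refine Finset.sum_congr ?_ fun _ _ => rfl
      ext R
      rw [Finset.mem_filter, Finset.mem_filter]
      refine ⟨fun h => ⟨h.1, ?_⟩, fun h => ⟨h.1, lt_of_lt_of_le hP1.2 h.2⟩⟩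
      have hxR : x ∈ R := h.2.1 hQ2.2
      rcases hS.comp hP1.1 h.1 hxP hxR with h3 | h3
      · exact h3
      · exact hP.2 (Finset.mem_filter.2 h) h3.le
    rw [h1]
    by_contra hcon
    push Not at hcon
    have h2 : P ∈ W' := Finset.mem_filter.2 ⟨Finset.mem_filter.2 ⟨hP1.1, hxP⟩, hcon⟩
    have h3 := hQ.2 h2 hP1.2.1
    exact hP1.2.2 h3
  · rw [Finset.not_nonempty_iff_eq_empty] at hne
    unfold bS
    rw [hne, Finset.sum_empty]
    exact bot_le

open Classical in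
theorem A_loc {S : Finset (Set α)} (hS : SLam S) (c : Set α → ℝ≥0∞) {Q : Set α}
    (hQ : Q ∈ S) {x : α} (hx : x ∈ Q) :
    A S c x ≤ bS S c Q + ∑ Q' ∈ S with Q' ⊆ Q, Q'.indicator (fun _ => c Q') x := by
  unfold A bS
  rw [sum_ind, sum_ind, Finset.filter_filter]
  have h1 : (S.filter (fun Q' => x ∈ Q')) ⊆ (S.filter (fun Q' => Q ⊂ Q')) ∪
      (S.filter (fun Q' => Q' ⊆ Q ∧ x ∈ Q')) := by
    intro R hR
    rw [Finset.mem_filter] at hR
    rw [Finset.mem_union, Finset.mem_filter, Finset.mem_filter]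
    rcases hS.comp hR.1 hQ hR.2 hx with h | h
    · exact Or.inr ⟨hR.1, h, hR.2⟩
    · exact Or.inl ⟨hR.1, h⟩
  refine (Finset.sum_le_sum_of_subset h1).trans ?_
  rw [Finset.sum_union]
  rw [Finset.disjoint_left]
  intro R hR hR'
  rw [Finset.mem_filter] at hR hR'
  exact hR.2.2 hR'.2.1

open Classical in
/-- the local estimate -/
theorem loc_est {p q : ℝ} (hpq : p.HolderConjugate q) (vol μ ν : Measure α)
    (S : Finset (Set α)) (hS : SLam S) (T : ℝ≥0)
    (hT : ∀ R ∈ S, ∫⁻ x in R, (∑ Q ∈ S with Q ⊆ R, Q.indicator (fun _ => ν Q / vol Q) x) ^ q ∂μ ≤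
      (T : ℝ≥0∞) ^ q * ν R) (f : α → ℝ≥0∞) (hf : Measurable f) (Q : Set α) (hQ : Q ∈ S) :
    ∫⁻ x in Q, (∑ Q' ∈ S with Q' ⊆ Q,
      Q'.indicator (fun _ => (∫⁻ y in Q', f y ∂μ) / vol Q') x) ∂ν ≤
      (∫⁻ y in Q, f y ^ p ∂μ) ^ (1 / p) * (T * ν Q ^ (1 / q)) := by
  have hms : ∀ Q' ∈ S.filter (fun Q' => Q' ⊆ Q), MeasurableSet Q' :=
    fun Q' h => hS.1 Q' (Finset.mem_filter.1 h).1
  have hsub : ∀ Q' ∈ S.filter (fun Q' => Q' ⊆ Q), Q' ⊆ Q := fun Q' h => (Finset.mem_filter.1 h).2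
  have e1 := dual ν (S.filter (fun Q' => Q' ⊆ Q)) hms
    (fun Q' => (∫⁻ y in Q', f y ∂μ) / vol Q') (fun _ => 1) measurable_const Q hsub
  simp only [mul_one, setLIntegral_one] at e1
  have e2 := dual μ (S.filter (fun Q' => Q' ⊆ Q)) hms (fun Q' => ν Q' / vol Q') f hf Q hsub
  have e3 : ∑ Q' ∈ S with Q' ⊆ Q, (∫⁻ y in Q', f y ∂μ) / vol Q' * ν Q' =
      ∑ Q' ∈ S with Q' ⊆ Q, ν Q' / vol Q' * ∫⁻ y in Q', f y ∂μ := by
    refine Finset.sum_congr rfl fun Q' _ => ?_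
    rw [div_eq_mul_inv, div_eq_mul_inv]
    ring
  rw [e1, e3, ← e2]
  have h4 := ENNReal.lintegral_mul_le_Lp_mul_Lq (μ.restrict Q) hpq.symm
    (f := fun x => ∑ Q' ∈ S with Q' ⊆ Q, Q'.indicator (fun _ => ν Q' / vol Q') x) (g := f)
    (meas_sum _ hms _).aemeasurable hf.aemeasurable
  refine h4.trans ?_
  rw [mul_comm]
  gcongr
  calc (∫⁻ a in Q, (∑ Q' ∈ S with Q' ⊆ Q, Q'.indicator (fun _ => ν Q' / vol Q') a) ^ q ∂μ) ^ (1 / q)
      ≤ ((T : ℝ≥0∞) ^ q * ν Q) ^ (1 / q) :=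
        ENNReal.rpow_le_rpow (hT Q hQ) (by have := hpq.symm.pos; positivity)
    _ = T * ν Q ^ (1 / q) := by
        have hq := hpq.symm.pos
        rw [ENNReal.mul_rpow_of_nonneg _ _ (by positivity), ← ENNReal.rpow_mul,
          mul_one_div_cancel hq.ne', ENNReal.rpow_one]

open Classical in
theorem weakTest {p q : ℝ} (hpq : p.HolderConjugate q) : ∃ C : ℝ≥0,
    ∀ {α : Type} [MeasurableSpace α] (vol μ ν : Measure α) (S : Finset (Set α)), SLam S →
    (∀ Q ∈ S, 0 < vol Q ∧ vol Q < ∞) → (∀ Q ∈ S, μ Q < ∞) → (∀ Q ∈ S, ν Q < ∞) → ∀ T : ℝ≥0,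
    (∀ R ∈ S, ∫⁻ x in R, (∑ Q ∈ S with Q ⊆ R, Q.indicator (fun _ => ν Q / vol Q) x) ^ q ∂μ ≤
      (T : ℝ≥0∞) ^ q * ν R) →
    ∀ f : α → ℝ≥0∞, Measurable f → ∀ lam : ℝ≥0∞,
    lam ^ p * ν {x | lam < ∑ Q ∈ S, Q.indicator (fun _ => (∫⁻ y in Q, f y ∂μ) / vol Q) x} ≤
      C * (T : ℝ≥0∞) ^ p * ∫⁻ y, f y ^ p ∂μ := by
  have hp := hpq.pos
  have hq := hpq.symm.pos
  -- constants
  set η : ℝ≥0 := (2 : ℝ≥0) ^ (-p - 1) with hη
  have hη0 : η ≠ 0 := by
    have : 0 < η := NNReal.rpow_pos (by norm_num)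
    exact this.ne'
  have hη1 : ((2 : ℝ≥0∞)) ^ p * (η : ℝ≥0∞) = 2⁻¹ := by
    rw [hη, ENNReal.coe_rpow_of_ne_zero (by norm_num)]
    rw [show ((2 : ℝ≥0) : ℝ≥0∞) = 2 from rfl, ← ENNReal.rpow_add _ _ (by norm_num) (by norm_num)]
    rw [show p + (-p - 1) = -1 by ring, ENNReal.rpow_neg_one]
  refine ⟨2 * (2 / η) ^ p, ?_⟩
  intro α _ vol μ ν S hS hvol hμ hν T hT f hf lam
  set c : Set α → ℝ≥0∞ := fun Q => (∫⁻ y in Q, f y ∂μ) / vol Q with hc
  have hAdef : ∀ x, ∑ Q ∈ S, Q.indicator (fun _ => (∫⁻ y in Q, f y ∂μ) / vol Q) x = A S c x :=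
    fun x => rfl
  simp only [hAdef]
  have hCpos : ((2 * (2 / η) ^ p : ℝ≥0) : ℝ≥0∞) ≠ 0 := by
    rw [ENNReal.coe_ne_zero]
    have : 0 < η := pos_iff_ne_zero.2 hη0
    positivity
  by_cases hT0 : T = 0
  · -- degenerate case
    have h1 : ∀ R ∈ S, ν R = 0 ∨ μ R = 0 := by
      intro R hR
      have h2 := hT R hR
      rw [hT0, ENNReal.coe_zero, ENNReal.zero_rpow_of_pos hq, zero_mul] at h2
      have h3 : (ν R / vol R) ^ q * μ R ≤ 0 := by
        refine le_trans ?_ h2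
        calc (ν R / vol R) ^ q * μ R = ∫⁻ x in R, (ν R / vol R) ^ q ∂μ := by
              rw [setLIntegral_const]
          _ ≤ _ := by
              refine setLIntegral_mono' (hS.1 R hR) fun x hx => ?_
              refine ENNReal.rpow_le_rpow ?_ hq.le
              have : ν R / vol R = R.indicator (fun _ => ν R / vol R) x := by simp [hx]
              rw [this]
              exact Finset.single_le_sum (f := fun Q : Set α =>
                Q.indicator (fun _ => ν Q / vol Q) x) (fun _ _ => bot_le)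
                (Finset.mem_filter.2 ⟨hR, subset_rfl⟩)
      have h4 := nonpos_iff_eq_zero.1 h3
      rcases mul_eq_zero.1 h4 with h5 | h5
      · left
        rw [ENNReal.rpow_eq_zero_iff_of_pos hq, ENNReal.div_eq_zero_iff] at h5
        rcases h5 with h5 | h5
        · exact h5
        · exact absurd h5 (hvol R hR).2.ne
      · exact Or.inr h5
    have h2 : ν {x | lam < A S c x} = 0 := by
      have h3 : {x | lam < A S c x} ⊆ ⋃ Q ∈ S.filter (fun Q => ν Q = 0), Q := by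
        intro x hx
        by_contra hcon
        simp only [Set.mem_iUnion, not_exists, Finset.mem_filter] at hcon
        have h4 : A S c x = 0 := by
          unfold A
          refine Finset.sum_eq_zero fun Q hQ => ?_
          by_cases hxQ : x ∈ Q
          · rw [Set.indicator_of_mem hxQ]
            rcases h1 Q hQ with h5 | h5
            · exact absurd hxQ (hcon Q ⟨hQ, h5⟩)
            · simp only [hc]
              rw [setLIntegral_measure_zero _ _ h5, ENNReal.zero_div]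
          · exact Set.indicator_of_notMem hxQ _
        rw [Set.mem_setOf_eq, h4] at hx
        exact absurd hx (not_lt.2 bot_le)
      refine measure_mono_null h3 (le_antisymm ?_ bot_le)
      refine (measure_biUnion_finset_le _ _).trans (le_of_eq ?_)
      exact Finset.sum_eq_zero fun Q hQ => (Finset.mem_filter.1 hQ).2
    rw [h2, mul_zero]
    exact bot_le
  have hTne : (T : ℝ≥0∞) ≠ 0 := ENNReal.coe_ne_zero.2 hT0
  by_cases hI : ∫⁻ y, f y ^ p ∂μ = ∞
  · rw [hI, ENNReal.mul_top]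
    · exact le_top
    · refine mul_ne_zero hCpos ?_
      exact (ENNReal.rpow_pos (pos_iff_ne_zero.2 hTne) ENNReal.coe_ne_top).ne'
  set I := ∫⁻ y, f y ^ p ∂μ with hIdef
  -- finiteness of the coefficients
  have hcfin : ∀ Q ∈ S, c Q ≠ ∞ := fun Q hQ =>
    (ENNReal.div_lt_top (lint_fin hpq.lt.le (hμ Q hQ).ne hI) (hvol Q hQ).1.ne').ne
  -- good lambda inequality
  have good : ∀ l : ℝ≥0, l ≠ 0 → ν {x | 2 * (l : ℝ≥0∞) < A S c x} ≤
      η * ν {x | (l : ℝ≥0∞) < A S c x} + (T / (η * l)) ^ p * I := by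
    intro l hl
    have hl0 : (l : ℝ≥0∞) ≠ 0 := ENNReal.coe_ne_zero.2 hl
    have hηl0 : (η : ℝ≥0∞) * l ≠ 0 := mul_ne_zero (ENNReal.coe_ne_zero.2 hη0) hl0
    have hηlt : (η : ℝ≥0∞) * l ≠ ∞ := ENNReal.mul_ne_top ENNReal.coe_ne_top ENNReal.coe_ne_top
    have hAm : Measurable (A S c) := meas_sum S hS.1 c
    have hper : ∀ Q ∈ M S c l, ν (Q ∩ {x | 2 * (l : ℝ≥0∞) < A S c x}) ≤
        η * ν Q + (T / (η * l)) ^ p * ∫⁻ y in Q, f y ^ p ∂μ := by
      intro Q hQ
      have hQM := Finset.mem_filter.1 hQ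
      have hQS := hQM.1
      set E := Q ∩ {x | 2 * (l : ℝ≥0∞) < A S c x} with hE
      have hEm : MeasurableSet E := (hS.1 Q hQS).inter (measurableSet_lt measurable_const hAm)
      have h1 : (l : ℝ≥0∞) * ν E ≤ (∫⁻ y in Q, f y ^ p ∂μ) ^ (1 / p) * (T * ν Q ^ (1 / q)) := by
        refine le_trans ?_ (loc_est hpq vol μ ν S hS T hT f hf Q hQS)
        calc (l : ℝ≥0∞) * ν E = ∫⁻ x in E, (l : ℝ≥0∞) ∂ν := by rw [setLIntegral_const]
          _ ≤ ∫⁻ x in E, (∑ Q' ∈ S with Q' ⊆ Q,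
              Q'.indicator (fun _ => (∫⁻ y in Q', f y ∂μ) / vol Q') x) ∂ν := by
              refine setLIntegral_mono' hEm fun x hx => ?_
              have h2 := A_loc hS c hQS hx.1
              have h3 : 2 * (l : ℝ≥0∞) < A S c x := hx.2
              have h4 : (l : ℝ≥0∞) + l ≤ l + ∑ Q' ∈ S with Q' ⊆ Q, Q'.indicator (fun _ => c Q') x := by
                rw [← two_mul]
                exact h3.le.trans (h2.trans (add_le_add hQM.2.1 le_rfl))
              exact (ENNReal.add_le_add_iff_left ENNReal.coe_ne_top).1 h4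
          _ ≤ _ := lintegral_mono_set Set.inter_subset_left
      by_cases h2 : ν E ≤ η * ν Q
      · exact h2.trans le_self_add
      · push Not at h2
        refine le_trans ?_ le_add_self
        have hEQ : ν E ≤ ν Q := measure_mono Set.inter_subset_left
        refine hEQ.trans ?_
        have hνQ0 : ν Q ≠ 0 := by
          intro h0
          rw [h0] at hEQ
          have := nonpos_iff_eq_zero.1 hEQ
          rw [this] at h2
          exact absurd h2 (not_lt.2 bot_le)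
        have hνQt : ν Q ≠ ∞ := (hν Q hQS).ne
        -- (η l) ν(Q) ≤ I_Q^{1/p} T ν(Q)^{1/q}
        have h3 : (η * l : ℝ≥0∞) * ν Q ≤
            (∫⁻ y in Q, f y ^ p ∂μ) ^ (1 / p) * (T * ν Q ^ (1 / q)) := by
          refine le_trans ?_ h1
          calc (η * l : ℝ≥0∞) * ν Q = l * (η * ν Q) := by ring
            _ ≤ l * ν E := by gcongr
        have h4 : ν Q = ν Q ^ (1 / p) * ν Q ^ (1 / q) := by
          rw [← ENNReal.rpow_add _ _ hνQ0 hνQt]
          have : 1 / p + 1 / q = 1 := by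
            have := hpq.inv_add_inv_eq_one
            rw [one_div, one_div]; exact this
          rw [this, ENNReal.rpow_one]
        have hr0 : ν Q ^ (1 / q) ≠ 0 :=
          (ENNReal.rpow_pos (pos_iff_ne_zero.2 hνQ0) hνQt).ne'
        have hrt : ν Q ^ (1 / q) ≠ ∞ :=
          ENNReal.rpow_ne_top_of_nonneg (by positivity) hνQt
        have h5 : (η * l : ℝ≥0∞) * ν Q ^ (1 / p) ≤ (∫⁻ y in Q, f y ^ p ∂μ) ^ (1 / p) * T := by
          rw [← ENNReal.mul_le_mul_iff_left hr0 hrt]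
          calc (η * l : ℝ≥0∞) * ν Q ^ (1 / p) * ν Q ^ (1 / q) = (η * l : ℝ≥0∞) * ν Q := by
                rw [mul_assoc, ← h4]
            _ ≤ _ := h3
            _ = _ := by ring
        have h6 : ν Q ^ (1 / p) ≤ (T / (η * l)) * (∫⁻ y in Q, f y ^ p ∂μ) ^ (1 / p) := by
          have h8 : ν Q ^ (1 / p) ≤ ((∫⁻ y in Q, f y ^ p ∂μ) ^ (1 / p) * T) / (η * l) := by
            rw [ENNReal.le_div_iff_mul_le (Or.inl hηl0) (Or.inl hηlt), mul_comm]
            exact h5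
          refine h8.trans (le_of_eq ?_)
          simp only [ENNReal.div_eq_inv_mul]
          ring
        have h7 := ENNReal.rpow_le_rpow h6 hp.le
        rw [ENNReal.mul_rpow_of_nonneg _ _ hp.le, ← ENNReal.rpow_mul, ← ENNReal.rpow_mul,
          one_div_mul_cancel hp.ne', ENNReal.rpow_one, ENNReal.rpow_one] at h7
        exact h7
    have hcov : {x | 2 * (l : ℝ≥0∞) < A S c x} ⊆
        ⋃ Q ∈ M S c l, (Q ∩ {x | 2 * (l : ℝ≥0∞) < A S c x}) := by
      intro x hx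
      have h1 : (l : ℝ≥0∞) < A S c x := by
        refine lt_of_le_of_lt ?_ hx
        rw [two_mul]
        exact le_self_add
      obtain ⟨Q, hQ, hxQ⟩ := M_cover hS c l h1
      simp only [Set.mem_iUnion]
      exact ⟨Q, hQ, hxQ, hx⟩
    have hdis : Set.PairwiseDisjoint (↑(M S c l)) (id : Set α → Set α) :=
      fun P hP Q hQ hne => M_disj hS c l hP hQ hne
    have hMm : ∀ Q ∈ M S c l, MeasurableSet (id Q) := fun Q hQ => hS.1 Q (Finset.mem_filter.1 hQ).1
    calc ν {x | 2 * (l : ℝ≥0∞) < A S c x}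
        ≤ ν (⋃ Q ∈ M S c l, (Q ∩ {x | 2 * (l : ℝ≥0∞) < A S c x})) := measure_mono hcov
      _ ≤ ∑ Q ∈ M S c l, ν (Q ∩ {x | 2 * (l : ℝ≥0∞) < A S c x}) := measure_biUnion_finset_le _ _
      _ ≤ ∑ Q ∈ M S c l, (η * ν Q + (T / (η * l)) ^ p * ∫⁻ y in Q, f y ^ p ∂μ) :=
          Finset.sum_le_sum hper
      _ = η * ∑ Q ∈ M S c l, ν Q + (T / (η * l)) ^ p * ∑ Q ∈ M S c l, ∫⁻ y in Q, f y ^ p ∂μ := by
          rw [Finset.sum_add_distrib, Finset.mul_sum, Finset.mul_sum]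
      _ ≤ _ := by
          gcongr
          · calc ∑ Q ∈ M S c l, ν Q = ν (⋃ Q ∈ M S c l, id Q) :=
                  (measure_biUnion_finset hdis hMm).symm
              _ ≤ _ := by
                  refine measure_mono ?_
                  intro x hx
                  simp only [Set.mem_iUnion] at hx
                  obtain ⟨Q, hQ, hxQ⟩ := hx
                  exact M_sub c l hQ hxQ
          · calc ∑ Q ∈ M S c l, ∫⁻ y in Q, f y ^ p ∂μ
                = ∫⁻ y in ⋃ Q ∈ M S c l, id Q, f y ^ p ∂μ :=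
                  (lintegral_biUnion_finset hdis hMm _).symm
              _ ≤ _ := setLIntegral_le_lintegral _ _
  -- the supremum
  set N : ℝ≥0∞ := ⨆ l : ℝ≥0, (l : ℝ≥0∞) ^ p * ν {x | (l : ℝ≥0∞) < A S c x} with hN
  have hNfin : N ≠ ∞ := by
    have h1 : N ≤ (∑ Q ∈ S, c Q) ^ p * ∑ Q ∈ S, ν Q := by
      refine iSup_le fun l => ?_
      by_cases hne : ∃ x, (l : ℝ≥0∞) < A S c x
      · obtain ⟨x, hx⟩ := hne
        have h2 : A S c x ≤ ∑ Q ∈ S, c Q := by
          refine Finset.sum_le_sum fun Q _ => ?_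
          exact Set.indicator_le_self' (fun _ _ => bot_le) _
        refine mul_le_mul' (ENNReal.rpow_le_rpow (hx.le.trans h2) hp.le) ?_
        refine le_trans (measure_mono ?_) (measure_biUnion_finset_le S id)
        intro y hy
        simp only [Set.mem_iUnion]
        by_contra hcon
        push Not at hcon
        have h3 : A S c y = 0 := Finset.sum_eq_zero fun Q hQ =>
          Set.indicator_of_notMem (hcon Q hQ) _
        rw [Set.mem_setOf_eq, h3] at hy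
        exact absurd hy (not_lt.2 bot_le)
      · have : {x | (l : ℝ≥0∞) < A S c x} = ∅ := by
          ext x
          simp only [Set.mem_setOf_eq, Set.mem_empty_iff_false, iff_false]
          exact fun h => hne ⟨x, h⟩
        rw [this, measure_empty, mul_zero]
        exact bot_le
    refine (lt_of_le_of_lt h1 (ENNReal.mul_lt_top ?_ ?_)).ne
    · exact (ENNReal.rpow_ne_top_of_nonneg hp.le
        (ENNReal.sum_lt_top.2 fun Q hQ => lt_top_iff_ne_top.2 (hcfin Q hQ)).ne).lt_top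
    · exact ENNReal.sum_lt_top.2 fun Q hQ => hν Q hQ
  have hNle : N ≤ N / 2 + (2 / (η : ℝ≥0∞)) ^ p * (T : ℝ≥0∞) ^ p * I := by
    refine iSup_le fun l0 => ?_
    by_cases hl0 : l0 = 0
    · rw [hl0, ENNReal.coe_zero, ENNReal.zero_rpow_of_pos hp, zero_mul]
      exact bot_le
    set l : ℝ≥0 := l0 / 2 with hl
    have hl0' : l ≠ 0 := by
      rw [hl]
      positivity
    have hll : (l0 : ℝ≥0∞) = 2 * l := by
      rw [hl, ENNReal.coe_div (by norm_num), ENNReal.coe_ofNat]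
      rw [ENNReal.mul_div_cancel (by norm_num) (by norm_num)]
    rw [hll]
    have h1 := good l hl0'
    have hlne : (l : ℝ≥0∞) ≠ 0 := ENNReal.coe_ne_zero.2 hl0'
    calc (2 * (l : ℝ≥0∞)) ^ p * ν {x | 2 * (l : ℝ≥0∞) < A S c x}
        ≤ (2 * (l : ℝ≥0∞)) ^ p * (η * ν {x | (l : ℝ≥0∞) < A S c x} + (T / (η * l)) ^ p * I) := by
          gcongr
      _ = (2 ^ p * η) * ((l : ℝ≥0∞) ^ p * ν {x | (l : ℝ≥0∞) < A S c x}) +
          (2 * (l : ℝ≥0∞) * (T / (η * l))) ^ p * I := by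
          rw [ENNReal.mul_rpow_of_nonneg (2 * (l : ℝ≥0∞)) _ hp.le,
            ENNReal.mul_rpow_of_nonneg 2 _ hp.le]
          ring
      _ ≤ N / 2 + (2 / (η : ℝ≥0∞)) ^ p * (T : ℝ≥0∞) ^ p * I := by
          refine add_le_add ?_ ?_
          · rw [hη1, ENNReal.div_eq_inv_mul]
            gcongr
            exact le_iSup (fun l : ℝ≥0 => (l : ℝ≥0∞) ^ p * ν {x | (l : ℝ≥0∞) < A S c x}) l
          · rw [← ENNReal.mul_rpow_of_nonneg _ _ hp.le]
            refine mul_le_mul' (ENNReal.rpow_le_rpow ?_ hp.le) le_rfl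
            simp only [ENNReal.div_eq_inv_mul]
            rw [ENNReal.mul_inv (Or.inl (ENNReal.coe_ne_zero.2 hη0)) (Or.inl ENNReal.coe_ne_top)]
            calc 2 * (l : ℝ≥0∞) * ((η : ℝ≥0∞)⁻¹ * (l : ℝ≥0∞)⁻¹ * T)
                = (η : ℝ≥0∞)⁻¹ * 2 * T * ((l : ℝ≥0∞) * (l : ℝ≥0∞)⁻¹) := by ring
              _ = (η : ℝ≥0∞)⁻¹ * 2 * T := by
                  rw [ENNReal.mul_inv_cancel hlne ENNReal.coe_ne_top, mul_one]
              _ ≤ _ := le_rfl
  have hfinal := half_absorb hNfin hNle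
  have hCeq : ((2 * (2 / η) ^ p : ℝ≥0) : ℝ≥0∞) = 2 * (2 / (η : ℝ≥0∞)) ^ p := by
    rw [ENNReal.coe_mul, ENNReal.coe_rpow_of_nonneg _ hp.le, ENNReal.coe_div hη0]
    rfl
  rw [hCeq]
  by_cases hlt : lam = ∞
  · have : {x | lam < A S c x} = ∅ := by
      ext x
      simp [hlt]
    rw [this, measure_empty, mul_zero]
    exact bot_le
  · lift lam to ℝ≥0 using hlt
    refine (le_iSup (fun l : ℝ≥0 => (l : ℝ≥0∞) ^ p * ν {x | (l : ℝ≥0∞) < A S c x}) lam).trans ?_
    refine hfinal.trans (le_of_eq ?_)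
    ring

end Pool.Agent.TH304.RI.J596
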