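import Pool.Agent.TH279.RI.DefsT

set_option autoImplicit false

open MeasureTheory Metric Filter Topology
open scoped ENNReal NNReal
open Pool.Agent.H433R3.Sep
open Pool.Agent.TH279.RI

namespace Pool.Agent.TH304.RI

variable {d : ℕ} {𝕜 : Type*} [RCLike 𝕜]
variable {T : Lp 𝕜 2 (volume : Measure (Fin d → ℝ)) →L[𝕜] Lp 𝕜 2 (volume : Measure (Fin d → ℝ))}
variable {K : (Fin d → ℝ) → (Fin d → ℝ) → 𝕜}

theorem el_eq (x : Fin d → ℝ) : el x = ‖(WithLp.toLp 2 x : EuclideanSpace ℝ (Fin d))‖ := by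
  rw [EuclideanSpace.norm_eq]
  unfold el
  congr 1
  refine Finset.sum_congr rfl fun i _ => ?_
  rw [Real.norm_eq_abs, sq_abs]

theorem el_add_le (x y : Fin d → ℝ) : el (x + y) ≤ el x + el y := by
  rw [el_eq, el_eq, el_eq, WithLp.toLp_add]
  exact norm_add_le _ _

theorem el_cont : Continuous (fun x : Fin d → ℝ => el x) := by
  unfold el
  fun_prop

theorem trunc_meas (x : Fin d → ℝ) (ε : ℝ) : MeasurableSet {y : Fin d → ℝ | ε < el (x - y)} := by
  have : Continuous (fun y : Fin d → ℝ => el (x - y)) :=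
    el_cont.comp (continuous_const.sub continuous_id)
  exact (isOpen_lt continuous_const this).measurableSet

theorem ker_int (hd : 0 < d) (hT : IsCZO T K) {g : (Fin d → ℝ) → 𝕜} (hg : Integrable g volume)
    (x : Fin d → ℝ) {ε : ℝ} (hε : 0 < ε) :
    IntegrableOn (fun y => K x y * g y) {y | ε < el (x - y)} volume := by
  obtain ⟨Cs, hCs⟩ := hT.size
  refine Integrable.mono' ((hg.norm.const_mul (|Cs| / ε ^ d)).integrableOn)
    (((hT.ker_meas hd x).mul hg.1).restrict) ?_
  refine (ae_restrict_iff' (trunc_meas x ε)).2 (Eventually.of_forall fun y hy => ?_)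
  have hy' : ε < el (x - y) := hy
  rw [norm_mul]
  refine mul_le_mul_of_nonneg_right ?_ (norm_nonneg _)
  have hne : x ≠ y := by
    rintro rfl
    have : el (x - x) = 0 := by
      rw [sub_self]
      unfold el
      simp
    rw [this] at hy'
    linarith
  refine (hCs x y hne).trans ?_
  calc Cs / el (x - y) ^ d ≤ |Cs| / el (x - y) ^ d := by
        apply div_le_div_of_nonneg_right (le_abs_self _)
        exact pow_nonneg (el_nonneg _) d
    _ ≤ |Cs| / ε ^ d :=
        div_le_div_of_nonneg_left (abs_nonneg _) (by positivity)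
          (pow_le_pow_left₀ hε.le hy'.le d)

theorem TS_le {f : (Fin d → ℝ) → 𝕜} {x : Fin d → ℝ} {A : ℝ≥0∞}
    (h : ∀ ε : ℝ, 0 < ε → ‖∫ y in {y | ε < el (x - y)}, K x y * f y‖ₑ ≤ A) : TS K f x ≤ A :=
  iSup₂_le h

theorem le_TS (K : (Fin d → ℝ) → (Fin d → ℝ) → 𝕜) (f : (Fin d → ℝ) → 𝕜) (x : Fin d → ℝ)
    {ε : ℝ} (hε : 0 < ε) : ‖∫ y in {y | ε < el (x - y)}, K x y * f y‖ₑ ≤ TS K f x :=
  le_iSup₂ (f := fun (ε : ℝ) (_ : 0 < ε) => ‖∫ y in {y | ε < el (x - y)}, K x y * f y‖ₑ) ε hε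

theorem TS_add_le (hd : 0 < d) (hT : IsCZO T K) {g h : (Fin d → ℝ) → 𝕜} (hg : Integrable g volume)
    (hh : Integrable h volume) (x : Fin d → ℝ) :
    TS K (fun y => g y + h y) x ≤ TS K g x + TS K h x := by
  refine TS_le fun ε hε => ?_
  have e1 : ∫ y in {y | ε < el (x - y)}, K x y * (g y + h y) =
      (∫ y in {y | ε < el (x - y)}, K x y * g y) + ∫ y in {y | ε < el (x - y)}, K x y * h y := by
    rw [← integral_add (ker_int hd hT hg x hε) (ker_int hd hT hh x hε)]
    congr 1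
    funext y
    ring
  rw [e1]
  exact (enorm_add_le _ _).trans (add_le_add (le_TS K g x hε) (le_TS K h x hε))

theorem TS_sub_le (hd : 0 < d) (hT : IsCZO T K) {g h : (Fin d → ℝ) → 𝕜} (hg : Integrable g volume)
    (hh : Integrable h volume) (x : Fin d → ℝ) :
    TS K (fun y => g y - h y) x ≤ TS K g x + TS K h x := by
  refine TS_le fun ε hε => ?_
  have e1 : ∫ y in {y | ε < el (x - y)}, K x y * (g y - h y) =
      (∫ y in {y | ε < el (x - y)}, K x y * g y) - ∫ y in {y | ε < el (x - y)}, K x y * h y := by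
    rw [← integral_sub (ker_int hd hT hg x hε) (ker_int hd hT hh x hε)]
    congr 1
    funext y
    ring
  rw [e1]
  exact enorm_sub_le.trans (add_le_add (le_TS K g x hε) (le_TS K h x hε))

theorem TS_zero {f : (Fin d → ℝ) → 𝕜} (hf : f =ᵐ[volume] fun _ => (0 : 𝕜)) (x : Fin d → ℝ) :
    TS K f x = 0 := by
  refine le_antisymm (TS_le fun ε hε => ?_) bot_le
  have : ∫ y in {y | ε < el (x - y)}, K x y * f y = 0 := by
    rw [integral_congr_ae (g := fun _ => (0 : 𝕜)), integral_zero]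
    filter_upwards [ae_restrict_of_ae hf] with y hy
    rw [hy, mul_zero]
  rw [this, enorm_zero]

end Pool.Agent.TH304.RI
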