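import Pool.Agent.H433R3.Sep7

set_option autoImplicit false

open MeasureTheory
open scoped ENNReal NNReal
open Pool.Agent.H433R3.Sep

namespace Pool.Agent.TH304.RI

variable {α : Type} [MeasurableSpace α]

theorem young' {p q : ℝ} (hpq : p.HolderConjugate q) (a b : ℝ≥0∞) : a * b ≤ a ^ p + b ^ q := by
  refine (ENNReal.young_inequality a b hpq).trans (add_le_add ?_ ?_)
  · refine ENNReal.div_le_of_le_mul ?_
    have h1 : (1 : ℝ≥0∞) ≤ ENNReal.ofReal p := by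
      rw [← ENNReal.ofReal_one]
      exact ENNReal.ofReal_le_ofReal hpq.lt.le
    calc a ^ p = a ^ p * 1 := (mul_one _).symm
      _ ≤ _ := by gcongr
  · refine ENNReal.div_le_of_le_mul ?_
    have h1 : (1 : ℝ≥0∞) ≤ ENNReal.ofReal q := by
      rw [← ENNReal.ofReal_one]
      exact ENNReal.ofReal_le_ofReal hpq.symm.lt.le
    calc b ^ q = b ^ q * 1 := (mul_one _).symm
      _ ≤ _ := by gcongr

theorem half_absorb {A B : ℝ≥0∞} (hA : A ≠ ∞) (h : A ≤ A / 2 + B) : A ≤ 2 * B := by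
  have h1 : A / 2 + A / 2 ≤ A / 2 + B := by
    rwa [ENNReal.add_halves]
  have h2 : A / 2 ≠ ∞ := (ENNReal.div_lt_top hA (by norm_num)).ne
  have h3 := (ENNReal.add_le_add_iff_left h2).1 h1
  calc A = A / 2 + A / 2 := (ENNReal.add_halves A).symm
    _ ≤ B + B := add_le_add h3 h3
    _ = 2 * B := (two_mul B).symm

theorem lint_fin {μ : Measure α} {p : ℝ} (hp : 1 ≤ p) {f : α → ℝ≥0∞} {Q : Set α}
    (hQ : μ Q ≠ ∞) (hI : ∫⁻ y, f y ^ p ∂μ ≠ ∞) : ∫⁻ y in Q, f y ∂μ ≠ ∞ := by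
  have h1 : ∀ z, f z ≤ 1 + f z ^ p := by
    intro z
    rcases le_total (f z) 1 with h | h
    · exact h.trans (by simp)
    · calc f z = f z ^ (1 : ℝ) := (ENNReal.rpow_one _).symm
        _ ≤ f z ^ p := ENNReal.rpow_le_rpow_of_exponent_le h hp
        _ ≤ _ := le_add_self
  have h2 : ∫⁻ y in Q, f y ∂μ ≤ μ Q + ∫⁻ y, f y ^ p ∂μ :=
    calc ∫⁻ y in Q, f y ∂μ ≤ ∫⁻ y in Q, (1 + f y ^ p) ∂μ := lintegral_mono h1
      _ = μ Q + ∫⁻ y in Q, f y ^ p ∂μ := by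
          rw [lintegral_add_left measurable_const]; simp
      _ ≤ _ := add_le_add le_rfl (setLIntegral_le_lintegral _ _)
  exact (lt_of_le_of_lt h2 (ENNReal.add_lt_top.2 ⟨lt_top_iff_ne_top.2 hQ,
    lt_top_iff_ne_top.2 hI⟩)).ne

theorem meas_sum (S : Finset (Set α)) (hS : ∀ Q ∈ S, MeasurableSet Q) (c : Set α → ℝ≥0∞) :
    Measurable (fun x => ∑ Q ∈ S, Q.indicator (fun _ => c Q) x) :=
  Finset.measurable_sum _ fun Q hQ => measurable_const.indicator (hS Q hQ)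

/-- duality identity -/
theorem dual (ν : Measure α) (S : Finset (Set α)) (hS : ∀ Q ∈ S, MeasurableSet Q)
    (c : Set α → ℝ≥0∞) (g : α → ℝ≥0∞) (hg : Measurable g) (P : Set α) (hP : ∀ Q ∈ S, Q ⊆ P) :
    ∫⁻ x in P, (∑ Q ∈ S, Q.indicator (fun _ => c Q) x) * g x ∂ν =
      ∑ Q ∈ S, c Q * ∫⁻ x in Q, g x ∂ν := by
  have h1 : ∀ x, (∑ Q ∈ S, Q.indicator (fun _ => c Q) x) * g x =
      ∑ Q ∈ S, Q.indicator (fun x => c Q * g x) x := by
    intro x
    rw [Finset.sum_mul]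
    refine Finset.sum_congr rfl fun Q _ => ?_
    by_cases h : x ∈ Q
    · simp [h]
    · simp [h]
  simp_rw [h1]
  rw [lintegral_finsetSum (f := fun (Q : Set α) x => Q.indicator (fun x => c Q * g x) x) S
    fun Q hQ => (measurable_const.mul hg).indicator (hS Q hQ)]
  refine Finset.sum_congr rfl fun Q hQ => ?_
  rw [lintegral_indicator (hS Q hQ), Measure.restrict_restrict (hS Q hQ),
    Set.inter_eq_left.2 (hP Q hQ), lintegral_const_mul _ hg]

theorem sum_ind (S : Finset (Set α)) (c : Set α → ℝ≥0∞) (x : α) [DecidablePred (fun Q : Set α => x ∈ Q)] :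
    ∑ Q ∈ S, Q.indicator (fun _ => c Q) x = ∑ Q ∈ S with x ∈ Q, c Q := by
  rw [Finset.sum_filter]
  refine Finset.sum_congr rfl fun Q _ => ?_
  by_cases h : x ∈ Q
  · simp [h]
  · simp [h]

end Pool.Agent.TH304.RI
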