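import Pool.Agent.TH304.RI.TSBase

set_option autoImplicit false

open MeasureTheory Metric Filter Topology
open scoped ENNReal NNReal
open Pool.Agent.H433R3.Sep
open Pool.Agent.TH279.RI

namespace Pool.Agent.TH304.RI.J593

/-- weak type (1,1) of the maximal singular integral (Cotlar) -/
theorem weakStar {d : ℕ} {𝕜 : Type*} [RCLike 𝕜]
    {T : Lp 𝕜 2 (volume : Measure (Fin d → ℝ)) →L[𝕜] Lp 𝕜 2 (volume : Measure (Fin d → ℝ))}
    {K : (Fin d → ℝ) → (Fin d → ℝ) → 𝕜} (hd : 0 < d) (hT : IsCZO T K) :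
    ∃ W : ℝ≥0, ∀ (f : (Fin d → ℝ) → 𝕜),
    Measurable f → ∀ B : ℝ≥0, (∀ x, ‖f x‖ ≤ B) → ∀ (c : Fin d → ℝ) (R : ℝ),
    (∀ x, x ∉ closedBall c R → f x = 0) → ∀ lam : ℝ≥0, 0 < lam →
    (lam : ℝ≥0∞) * volume {x | (lam : ℝ≥0∞) < TS K f x} ≤ W * ∫⁻ x, ‖f x‖ₑ := by
  obtain ⟨D, al, Ck, hD, hal, hker⟩ := hT.kerdiff hd
  obtain ⟨Ct, hCt⟩ := tail d al hal
  obtain ⟨W₀, hW⟩ := weakBdd hd hT
  have hsd : (1:ℝ) ≤ √d := by
    rw [Real.one_le_sqrt]; exact_mod_cast hd
  -- ratio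
  set q : ℝ := 4 * D * √d with hq
  have hq4 : 4 ≤ q := by rw [hq]; nlinarith
  have hq0 : 0 < q := by linarith
  set qn : ℝ≥0 := q.toNNReal with hqn
  have hqE : (qn : ℝ≥0∞) = ENNReal.ofReal q := rfl
  have hqn0 : 0 < qn := Real.toNNReal_pos.2 hq0
  set c₁ : ℝ≥0 := (16 * (W₀ + 1) * qn ^ d)⁻¹ with hc₁
  set c₂ : ℝ≥0 := (4 * (Ck * Ct + 1))⁻¹ with hc₂
  set c₀ : ℝ≥0 := min c₁ c₂ with hc₀
  have hc₁0 : 0 < c₁ := by rw [hc₁]; positivity
  have hc₂0 : 0 < c₂ := by rw [hc₂]; positivity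
  have hc₀0 : 0 < c₀ := lt_min hc₁0 hc₂0
  refine ⟨4 ^ d / c₀ + 4 ^ (d + 2) * W₀, ?_⟩
  intro f hf B hB c R h0 lam hlam
  have hfL : ∀ p : ℝ≥0∞, MemLp f p volume := fun p =>
    bddMem hf.aestronglyMeasurable hB isClosed_closedBall.measurableSet (vol_cb_fin c R) h0 p
  have hfint : Integrable f volume := memLp_one_iff_integrable.1 (hfL 1)
  have hfin : ∫⁻ x, ‖f x‖ₑ < ∞ := hfint.2
  have hlam0 : (lam : ℝ≥0∞) ≠ 0 := by exact_mod_cast hlam.ne'
  -- the level set of T f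
  set G : Set (Fin d → ℝ) := {x | ((lam / 4 : ℝ≥0) : ℝ≥0∞) < ‖TT T f x‖ₑ} with hG
  set G' := toMeasurable volume G with hG'
  have hG'm : MeasurableSet G' := measurableSet_toMeasurable _ _
  have hGG' : G ⊆ G' := subset_toMeasurable _ _
  have hG'v : volume G' = volume G := measure_toMeasurable G
  have hlam4 : 0 < lam / 4 := by positivity
  have hGv : ((lam / 4 : ℝ≥0) : ℝ≥0∞) * volume G ≤ W₀ * ∫⁻ x, ‖f x‖ₑ :=
    hW f hf B hB c R h0 (lam / 4) hlam4
  have hGfin : volume G < ∞ := by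
    by_contra hcon
    rw [not_lt, top_le_iff] at hcon
    rw [hcon, ENNReal.mul_top (by exact_mod_cast hlam4.ne')] at hGv
    exact absurd (ENNReal.mul_lt_top ENNReal.coe_lt_top hfin) (not_lt.2 hGv)
  set S₁ : Set (Fin d → ℝ) := {x | ∃ r : ℝ, 0 < r ∧ ((c₀ * lam : ℝ≥0) : ℝ≥0∞) *
    volume (closedBall x r) < ∫⁻ y in closedBall x r, ‖f y‖ₑ} with hS₁
  set S₂ : Set (Fin d → ℝ) := {x | ∃ r : ℝ, 0 < r ∧ ((4⁻¹ : ℝ≥0) : ℝ≥0∞) *
    volume (closedBall x r) < ∫⁻ y in closedBall x r, G'.indicator (fun _ => 1) y} with hS₂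
  have hsub : {x | (lam : ℝ≥0∞) < TS K f x} ⊆ S₁ ∪ S₂ := by
    intro x hx
    by_contra hcon
    rw [Set.mem_union, not_or] at hcon
    obtain ⟨hx1, hx2⟩ := hcon
    have hx1' : ∀ r : ℝ, 0 < r → ∫⁻ y in closedBall x r, ‖f y‖ₑ ≤
        ((c₀ * lam : ℝ≥0) : ℝ≥0∞) * volume (closedBall x r) := by
      intro r hr
      by_contra hc
      exact hx1 ⟨r, hr, not_le.1 hc⟩
    have hx2' : ∀ r : ℝ, 0 < r → volume (G ∩ closedBall x r) ≤
        ((4⁻¹ : ℝ≥0) : ℝ≥0∞) * volume (closedBall x r) := by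
      intro r hr
      by_contra hc
      refine hx2 ⟨r, hr, ?_⟩
      rw [not_le] at hc
      refine lt_of_lt_of_le hc ?_
      rw [lintegral_indicator hG'm, Measure.restrict_restrict hG'm, setLIntegral_one]
      exact measure_mono (Set.inter_subset_inter_left _ hGG')
    have hx3 : (lam : ℝ≥0∞) < TS K f x := hx
    refine absurd hx3 (not_lt.2 (TS_le fun ε hε => ?_))
    -- the two parts of f
    set E : Set (Fin d → ℝ) := {y | ε < el (x - y)} with hE
    have hEm : MeasurableSet E := trunc_meas x ε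
    set F2 : (Fin d → ℝ) → 𝕜 := E.indicator f with hF2
    set F1 : (Fin d → ℝ) → 𝕜 := fun y => f y - F2 y with hF1
    have hF2m : Measurable F2 := hf.indicator hEm
    have hF1m : Measurable F1 := hf.sub hF2m
    have hF2B : ∀ y, ‖F2 y‖ ≤ B := by
      intro y
      simp only [hF2]
      by_cases hy : y ∈ E
      · rw [Set.indicator_of_mem hy]; exact hB y
      · rw [Set.indicator_of_notMem hy, norm_zero]; exact NNReal.coe_nonneg _
    have hF1v : ∀ y, F1 y = if y ∈ E then 0 else f y := by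
      intro y
      simp only [hF1, hF2]
      by_cases hy : y ∈ E
      · rw [Set.indicator_of_mem hy, if_pos hy, sub_self]
      · rw [Set.indicator_of_notMem hy, if_neg hy, sub_zero]
    have hF1B : ∀ y, ‖F1 y‖ ≤ B := by
      intro y
      rw [hF1v y]
      split_ifs
      · rw [norm_zero]; exact NNReal.coe_nonneg _
      · exact hB y
    have hF20 : ∀ y, y ∉ closedBall c R → F2 y = 0 := by
      intro y hy
      simp only [hF2]
      by_cases hy' : y ∈ E
      · rw [Set.indicator_of_mem hy']; exact h0 y hy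
      · rw [Set.indicator_of_notMem hy']
    have hF10 : ∀ y, y ∉ closedBall c R → F1 y = 0 := by
      intro y hy
      rw [hF1v y]
      split_ifs
      · rfl
      · exact h0 y hy
    have hF2L : ∀ p : ℝ≥0∞, MemLp F2 p volume := fun p =>
      bddMem hF2m.aestronglyMeasurable hF2B isClosed_closedBall.measurableSet (vol_cb_fin c R)
        hF20 p
    have hF1L : ∀ p : ℝ≥0∞, MemLp F1 p volume := fun p =>
      bddMem hF1m.aestronglyMeasurable hF1B isClosed_closedBall.measurableSet (vol_cb_fin c R)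
        hF10 p
    -- radius
    set ρ : ℝ := ε / q with hρ
    have hρ0 : 0 < ρ := by positivity
    have hερ : ε = q * ρ := by rw [hρ]; field_simp
    set F : Set (Fin d → ℝ) := {y | ε ≤ el (x - y)} with hFdef
    have hFc : IsClosed F := by
      have : Continuous (fun y : Fin d → ℝ => el (x - y)) :=
        el_cont.comp (continuous_const.sub continuous_id)
      exact isClosed_le continuous_const this
    have hrep := rep_pt hT hF2m.aestronglyMeasurable hF2B hF20 hFc (fun y hy => by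
      simp only [hF2]
      refine Set.indicator_of_notMem (fun h => hy ?_) _
      have h' : ε < el (x - y) := h
      exact h'.le)
    have hsubT := TT_sub (T := T) (hfL 2) (hF1L 2)
    have hff : (fun y => f y - F1 y) = F2 := by
      funext y
      simp only [hF1]
      ring
    rw [hff] at hsubT
    -- weak type for F1
    have hF1w := hW F1 hF1m B hF1B c R hF10 (lam / 4) hlam4
    set H : Set (Fin d → ℝ) := {z | ((lam / 4 : ℝ≥0) : ℝ≥0∞) < ‖TT T F1 z‖ₑ} with hH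
    have hF1int : ∫⁻ y, ‖F1 y‖ₑ ≤ ∫⁻ y in closedBall x ε, ‖f y‖ₑ := by
      rw [← lintegral_indicator isClosed_closedBall.measurableSet]
      refine lintegral_mono fun y => ?_
      rw [hF1v y]
      by_cases hy : y ∈ E
      · rw [if_pos hy, enorm_zero]; exact bot_le
      · rw [if_neg hy]
        have h1 : el (x - y) ≤ ε := not_lt.1 hy
        have h2 : y ∈ closedBall x ε := by
          rw [mem_closedBall, dist_eq_norm, norm_sub_rev]
          exact (norm_le_el _).trans h1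
        rw [Set.indicator_of_mem h2]
    have hvε : volume (closedBall x ε) = (qn : ℝ≥0∞) ^ d * volume (closedBall x ρ) := by
      rw [hερ, vol_cb_mul x hq0.le hρ0.le, hqE]
    have hHv : volume H ≤ ((4⁻¹ : ℝ≥0) : ℝ≥0∞) * volume (closedBall x ρ) := by
      have h1 : ((lam / 4 : ℝ≥0) : ℝ≥0∞) * volume H ≤
          W₀ * (((c₀ * lam : ℝ≥0) : ℝ≥0∞) * ((qn : ℝ≥0∞) ^ d * volume (closedBall x ρ))) := by
        refine hF1w.trans ?_
        gcongr
        refine hF1int.trans ?_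
        rw [← hvε]
        exact hx1' ε hε
      have h2 : W₀ * (c₀ * lam) * qn ^ d ≤ lam / 4 * 4⁻¹ := by
        have h3 : c₀ ≤ c₁ := min_le_left _ _
        have h4 : (W₀ + 1) * c₁ * qn ^ d = 16⁻¹ := by
          rw [hc₁]
          have : (W₀ + 1) ≠ 0 := by positivity
          have : qn ^ d ≠ 0 := by positivity
          field_simp
        calc W₀ * (c₀ * lam) * qn ^ d ≤ (W₀ + 1) * (c₁ * lam) * qn ^ d := by
              gcongr
              exact le_self_add
          _ = ((W₀ + 1) * c₁ * qn ^ d) * lam := by ring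
          _ = lam / 4 * 4⁻¹ := by
              rw [h4]
              rw [← NNReal.coe_inj]
              push_cast
              ring
      have h5 : ((lam / 4 : ℝ≥0) : ℝ≥0∞) * volume H ≤
          ((lam / 4 : ℝ≥0) : ℝ≥0∞) * (((4⁻¹ : ℝ≥0) : ℝ≥0∞) * volume (closedBall x ρ)) := by
        refine h1.trans ?_
        calc (W₀ : ℝ≥0∞) * (((c₀ * lam : ℝ≥0) : ℝ≥0∞) * ((qn : ℝ≥0∞) ^ d *
              volume (closedBall x ρ)))
            = ((W₀ * (c₀ * lam) * qn ^ d : ℝ≥0) : ℝ≥0∞) * volume (closedBall x ρ) := by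
              push_cast; ring
          _ ≤ ((lam / 4 * 4⁻¹ : ℝ≥0) : ℝ≥0∞) * volume (closedBall x ρ) := by
              gcongr
          _ = _ := by rw [ENNReal.coe_mul]; ring
      exact (ENNReal.mul_le_mul_iff_right (by exact_mod_cast hlam4.ne') ENNReal.coe_ne_top).1 h5
    -- choice of z
    obtain ⟨z, hz1, hz2, hz3, hz4, hz5⟩ : ∃ z, z ∈ closedBall x ρ ∧ z ∉ G ∧ z ∉ H ∧
        (z ∉ F → TT T F2 z = ∫ y, K z y * F2 y) ∧ TT T F2 z = TT T f z - TT T F1 z := by
      by_contra hcon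
      push Not at hcon
      set N₀ : Set (Fin d → ℝ) := {z | ¬ ((z ∉ F → TT T F2 z = ∫ y, K z y * F2 y) ∧
        TT T F2 z = TT T f z - TT T F1 z)} with hN₀
      have hN₀v : volume N₀ = 0 := by
        rw [← compl_mem_ae_iff]
        filter_upwards [hrep, hsubT] with z hz hz' hzN
        exact hzN ⟨hz, hz'⟩
      have h1 : closedBall x ρ ⊆ (G ∩ closedBall x ρ) ∪ H ∪ N₀ := by
        intro z hz
        by_contra hzc
        have z1 : z ∉ G := fun hc => hzc (Or.inl (Or.inl ⟨hc, hz⟩))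
        have z2 : z ∉ H := fun hc => hzc (Or.inl (Or.inr hc))
        have z3 : z ∉ N₀ := fun hc => hzc (Or.inr hc)
        apply z3
        rintro ⟨z4, z5⟩
        exact hcon z hz z1 z2 z4 z5
      have h2 : volume (closedBall x ρ) ≤ ((4⁻¹ : ℝ≥0) : ℝ≥0∞) * volume (closedBall x ρ) +
          ((4⁻¹ : ℝ≥0) : ℝ≥0∞) * volume (closedBall x ρ) := by
        calc volume (closedBall x ρ) ≤ volume (G ∩ closedBall x ρ) + volume H + volume N₀ :=
              (measure_mono h1).trans ((measure_union_le _ _).trans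
                (add_le_add (measure_union_le _ _) le_rfl))
          _ ≤ _ := by
              rw [hN₀v, add_zero]
              exact add_le_add (hx2' ρ hρ0) hHv
      rw [← add_mul, ← ENNReal.coe_add] at h2
      have h3 : volume (closedBall x ρ) ≠ 0 := (vol_cb_pos x hρ0).ne'
      have h4 : volume (closedBall x ρ) ≠ ∞ := (vol_cb_fin x ρ).ne
      have h5 : (1 : ℝ≥0∞) * volume (closedBall x ρ) ≤
          ((4⁻¹ + 4⁻¹ : ℝ≥0) : ℝ≥0∞) * volume (closedBall x ρ) := by rwa [one_mul]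
      have h6 := (ENNReal.mul_le_mul_iff_left h3 h4).1 h5
      have h7 : (1 : ℝ≥0) ≤ 4⁻¹ + 4⁻¹ := by exact_mod_cast h6
      have h8 : (1 : ℝ) ≤ 4⁻¹ + 4⁻¹ := by exact_mod_cast h7
      norm_num at h8
    have hzx : ‖z - x‖ ≤ ρ := by rwa [mem_closedBall, dist_eq_norm] at hz1
    have hzF : z ∉ F := by
      intro hc
      have h1 : ε ≤ el (x - z) := hc
      have h2 : el (x - z) ≤ √d * ‖x - z‖ := el_le _
      rw [norm_sub_rev] at h2
      have h3 : √d * ‖z - x‖ ≤ √d * ρ := by gcongr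
      have h4 : ε = 4 * D * (√d * ρ) := by rw [hερ, hq]; ring
      have h5 : 0 < √d * ρ := by positivity
      nlinarith
    have hz6 := hz4 hzF
    -- T F2 at z
    have hTF2 : ‖∫ y, K z y * F2 y‖ₑ ≤ ((lam / 4 : ℝ≥0) : ℝ≥0∞) + ((lam / 4 : ℝ≥0) : ℝ≥0∞) := by
      rw [← hz6, hz5]
      exact enorm_sub_le.trans (add_le_add (not_lt.1 hz2) (not_lt.1 hz3))
    -- far points
    have hfar : ∀ y ∈ E, 2 * D * ρ ≤ ‖x - y‖ := by
      intro y hy
      have h1 : ε < el (x - y) := hy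
      have h2 : el (x - y) ≤ √d * ‖x - y‖ := el_le _
      have h3 : √d * (4 * D * ρ) < √d * ‖x - y‖ := by
        calc √d * (4 * D * ρ) = ε := by rw [hερ, hq]; ring
          _ < _ := h1.trans_le h2
      have h4 : 4 * D * ρ < ‖x - y‖ := lt_of_mul_lt_mul_left h3 (by positivity)
      nlinarith
    have hkx : IntegrableOn (fun y => K x y * F2 y) E volume :=
      ker_int hd hT (memLp_one_iff_integrable.1 (hF2L 1)) x hε
    have hE2 : ∀ w, ∫ y, K w y * F2 y = ∫ y in E, K w y * F2 y := by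
      intro w
      rw [← integral_indicator hEm]
      refine integral_congr_ae (Eventually.of_forall fun y => ?_)
      by_cases hy : y ∈ E
      · simp only [Set.indicator_of_mem hy]
      · simp only [Set.indicator_of_notMem hy, hF2, mul_zero]
    have hgoal : ∫ y in E, K x y * f y = ∫ y in E, K x y * F2 y := by
      refine setIntegral_congr_fun hEm fun y hy => ?_
      simp only [hF2, Set.indicator_of_mem hy]
    rw [hgoal]
    -- kernel difference
    have hkd : ∫⁻ y in E, ‖K x y * F2 y - K z y * F2 y‖ₑ ≤ Ck * (Ct * ((c₀ * lam : ℝ≥0) : ℝ≥0∞)) := by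
      have hpt : ∀ y ∈ E, ‖K x y * F2 y - K z y * F2 y‖ₑ ≤
          Ck * ({y : Fin d → ℝ | 2 * D * ρ ≤ ‖y - x‖}.indicator (fun y => ‖f y‖ₑ *
            ENNReal.ofReal ((2 * D * ρ) ^ al / (‖y - x‖ ^ al * ‖y - x‖ ^ d))) y) := by
        intro y hy
        have h1 := hfar y hy
        have hmem : y ∈ {y : Fin d → ℝ | 2 * D * ρ ≤ ‖y - x‖} := by
          show 2 * D * ρ ≤ ‖y - x‖
          rw [norm_sub_rev]; exact h1
        rw [Set.indicator_of_mem hmem, ← sub_mul, enorm_mul]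
        have h2 := (hker ρ hρ0 x z y (by rw [norm_sub_rev]; exact hzx) h1).1
        rw [norm_sub_rev x y] at h2
        have h3 : ‖K x y - K z y‖ₑ ≤ Ck * ENNReal.ofReal
            ((2 * D * ρ) ^ al / (‖y - x‖ ^ al * ‖y - x‖ ^ d)) := by
          rw [← ofReal_norm, ← ENNReal.ofReal_coe_nnreal, ← ENNReal.ofReal_mul
            (NNReal.coe_nonneg _)]
          exact ENNReal.ofReal_le_ofReal h2
        have h4 : ‖F2 y‖ₑ = ‖f y‖ₑ := by
          simp only [hF2, Set.indicator_of_mem hy]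
        rw [h4]
        calc ‖K x y - K z y‖ₑ * ‖f y‖ₑ
            ≤ (Ck * ENNReal.ofReal ((2 * D * ρ) ^ al / (‖y - x‖ ^ al * ‖y - x‖ ^ d))) *
              ‖f y‖ₑ := mul_le_mul' h3 le_rfl
          _ = _ := by ring
      have hmS : MeasurableSet {y : Fin d → ℝ | 2 * D * ρ ≤ ‖y - x‖} := by
        apply measurableSet_le measurable_const
        fun_prop
      calc ∫⁻ y in E, ‖K x y * F2 y - K z y * F2 y‖ₑ
          ≤ ∫⁻ y in E, Ck * ({y : Fin d → ℝ | 2 * D * ρ ≤ ‖y - x‖}.indicator (fun y => ‖f y‖ₑ *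
            ENNReal.ofReal ((2 * D * ρ) ^ al / (‖y - x‖ ^ al * ‖y - x‖ ^ d))) y) :=
            setLIntegral_mono' hEm hpt
        _ ≤ ∫⁻ y, Ck * ({y : Fin d → ℝ | 2 * D * ρ ≤ ‖y - x‖}.indicator (fun y => ‖f y‖ₑ *
            ENNReal.ofReal ((2 * D * ρ) ^ al / (‖y - x‖ ^ al * ‖y - x‖ ^ d))) y) :=
            setLIntegral_le_lintegral _ _
        _ = Ck * ∫⁻ y in {y | 2 * D * ρ ≤ ‖y - x‖}, ‖f y‖ₑ *
            ENNReal.ofReal ((2 * D * ρ) ^ al / (‖y - x‖ ^ al * ‖y - x‖ ^ d)) := by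
            rw [lintegral_const_mul' _ _ ENNReal.coe_ne_top, lintegral_indicator hmS]
        _ ≤ Ck * (Ct * ((c₀ * lam : ℝ≥0) : ℝ≥0∞)) := by
            apply mul_le_mul' le_rfl
            apply hCt (fun y => ‖f y‖ₑ) x (2 * D * ρ) _ hf.enorm (by positivity)
            intro r hr
            exact hx1' r (lt_of_lt_of_le (by positivity) hr)
    have hkdint : IntegrableOn (fun y => K x y * F2 y - K z y * F2 y) E volume := by
      refine ⟨?_, lt_of_le_of_lt hkd (by finiteness)⟩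
      exact ((((hT.ker_meas hd x).mul hF2m.aestronglyMeasurable).sub
        ((hT.ker_meas hd z).mul hF2m.aestronglyMeasurable))).restrict
    have hkz : IntegrableOn (fun y => K z y * F2 y) E volume := by
      have := hkx.sub hkdint
      refine this.congr (Eventually.of_forall fun y => ?_)
      simp only [Pi.sub_apply]
      ring
    have e1 : ∫ y in E, K x y * F2 y = (∫ y, K z y * F2 y) +
        ∫ y in E, (K x y * F2 y - K z y * F2 y) := by
      rw [integral_sub hkx hkz, hE2 z]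
      ring
    rw [e1]
    calc ‖(∫ y, K z y * F2 y) + ∫ y in E, (K x y * F2 y - K z y * F2 y)‖ₑ
        ≤ (((lam / 4 : ℝ≥0) : ℝ≥0∞) + ((lam / 4 : ℝ≥0) : ℝ≥0∞)) +
          Ck * (Ct * ((c₀ * lam : ℝ≥0) : ℝ≥0∞)) :=
          (enorm_add_le _ _).trans (add_le_add hTF2
            ((enorm_integral_le_lintegral_enorm _).trans hkd))
      _ = ((lam / 4 + lam / 4 + Ck * (Ct * (c₀ * lam)) : ℝ≥0) : ℝ≥0∞) := by push_cast; ring
      _ ≤ (lam : ℝ≥0∞) := by
          rw [ENNReal.coe_le_coe]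
          have h3 : c₀ ≤ c₂ := min_le_right _ _
          have h4 : (Ck * Ct + 1) * c₂ = 4⁻¹ := by
            rw [hc₂]
            have : Ck * Ct + 1 ≠ 0 := by positivity
            field_simp
          have h5 : Ck * (Ct * (c₀ * lam)) ≤ 4⁻¹ * lam := by
            calc Ck * (Ct * (c₀ * lam)) = Ck * Ct * c₀ * lam := by ring
              _ ≤ (Ck * Ct + 1) * c₂ * lam := by
                  gcongr
                  exact le_self_add
              _ = _ := by rw [h4]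
          rw [← NNReal.coe_le_coe] at h5 ⊢
          push_cast at h5 ⊢
          have h6 : (0:ℝ) ≤ lam := NNReal.coe_nonneg _
          linarith
  -- measures of the two sets
  have hv1 : ((c₀ * lam : ℝ≥0) : ℝ≥0∞) * volume S₁ ≤ 4 ^ d * ∫⁻ x, ‖f x‖ₑ := by
    refine maxWeak hd (fun y => ‖f y‖ₑ) hfin _ ?_ ENNReal.coe_ne_top
    have : 0 < c₀ * lam := by positivity
    exact_mod_cast this.ne'
  have hv2 : ((4⁻¹ : ℝ≥0) : ℝ≥0∞) * volume S₂ ≤ 4 ^ d * volume G := by
    have h1 : ∫⁻ y, G'.indicator (fun _ => (1 : ℝ≥0∞)) y = volume G := by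
      rw [lintegral_indicator hG'm, setLIntegral_one, hG'v]
    have := maxWeak hd (fun y => G'.indicator (fun _ => (1 : ℝ≥0∞)) y) (by rw [h1]; exact hGfin)
      ((4⁻¹ : ℝ≥0) : ℝ≥0∞) (by norm_num) ENNReal.coe_ne_top
    rw [h1] at this
    exact this
  have hc₀E : (c₀ : ℝ≥0∞) ≠ 0 := by exact_mod_cast hc₀0.ne'
  have hw1 : (lam : ℝ≥0∞) * volume S₁ ≤ ((4 ^ d / c₀ : ℝ≥0) : ℝ≥0∞) * ∫⁻ x, ‖f x‖ₑ := by
    have h1 : (c₀ : ℝ≥0∞) * (lam * volume S₁) ≤
        (c₀ : ℝ≥0∞) * (((4 ^ d / c₀ : ℝ≥0) : ℝ≥0∞) * ∫⁻ x, ‖f x‖ₑ) := by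
      calc (c₀ : ℝ≥0∞) * (lam * volume S₁) = ((c₀ * lam : ℝ≥0) : ℝ≥0∞) * volume S₁ := by
            push_cast; ring
        _ ≤ 4 ^ d * ∫⁻ x, ‖f x‖ₑ := hv1
        _ = ((c₀ * (4 ^ d / c₀) : ℝ≥0) : ℝ≥0∞) * ∫⁻ x, ‖f x‖ₑ := by
            rw [mul_div_cancel₀ _ hc₀0.ne']
            push_cast
            rfl
        _ = _ := by rw [ENNReal.coe_mul]; ring
    exact (ENNReal.mul_le_mul_iff_right hc₀E ENNReal.coe_ne_top).1 h1
  have hw2 : (lam : ℝ≥0∞) * volume S₂ ≤ ((4 ^ (d + 2) * W₀ : ℝ≥0) : ℝ≥0∞) * ∫⁻ x, ‖f x‖ₑ := by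
    calc (lam : ℝ≥0∞) * volume S₂ = ((lam * 4 * 4⁻¹ : ℝ≥0) : ℝ≥0∞) * volume S₂ := by
          rw [mul_assoc, mul_inv_cancel₀ (by norm_num), mul_one]
      _ = lam * 4 * (((4⁻¹ : ℝ≥0) : ℝ≥0∞) * volume S₂) := by
          rw [ENNReal.coe_mul, ENNReal.coe_mul]
          push_cast
          ring
      _ ≤ lam * 4 * (4 ^ d * volume G) := by gcongr
      _ = ((16 * 4 ^ d * (lam / 4) : ℝ≥0) : ℝ≥0∞) * volume G := by
          have : (16 * 4 ^ d * (lam / 4) : ℝ≥0) = lam * 4 * 4 ^ d := by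
            rw [← NNReal.coe_inj]
            push_cast
            ring
          rw [this]
          push_cast
          ring
      _ = 16 * 4 ^ d * (((lam / 4 : ℝ≥0) : ℝ≥0∞) * volume G) := by
          rw [ENNReal.coe_mul]
          push_cast
          ring
      _ ≤ 16 * 4 ^ d * (W₀ * ∫⁻ x, ‖f x‖ₑ) := by gcongr
      _ = _ := by
          push_cast
          ring
  calc (lam : ℝ≥0∞) * volume {x | (lam : ℝ≥0∞) < TS K f x}
      ≤ lam * (volume S₁ + volume S₂) := by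
        gcongr
        exact (measure_mono hsub).trans (measure_union_le _ _)
    _ = lam * volume S₁ + lam * volume S₂ := by ring
    _ ≤ ((4 ^ d / c₀ : ℝ≥0) : ℝ≥0∞) * (∫⁻ x, ‖f x‖ₑ) +
        ((4 ^ (d + 2) * W₀ : ℝ≥0) : ℝ≥0∞) * ∫⁻ x, ‖f x‖ₑ := add_le_add hw1 hw2
    _ = _ := by
        rw [ENNReal.coe_add]
        ring

end Pool.Agent.TH304.RI.J593
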